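import Mathlib

/-!
# A combination of translates of a rational function with a single pole has few zeros
-/

set_option autoImplicit false

namespace Pool.Agent.U784.RG

open Polynomial Finset

variable {K : Type*} [Field K]

lemma reverse_eval (P : K[X]) {y : K} (hy : y ≠ 0) :
    (P.reverse).eval y = y ^ P.natDegree * P.eval y⁻¹ := by
  have hy' : y⁻¹ ≠ 0 := inv_ne_zero hy
  let _ : Invertible (y⁻¹) := invertibleOfNonzero hy'
  have h := eval₂_reverse_mul_pow (RingHom.id K) (y⁻¹) P
  rw [invOf_eq_inv, inv_inv] at h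
  rw [← eval₂_id, ← eval₂_id, ← h]
  have h1 : y ^ P.natDegree * (y⁻¹) ^ P.natDegree = 1 := by
    rw [← mul_pow, mul_inv_cancel₀ hy, one_pow]
  linear_combination (-(eval₂ (RingHom.id K) y P.reverse)) * h1

lemma natDegree_lin (a : K) : (1 - C a * X : K[X]).natDegree ≤ 1 := by
  refine (natDegree_sub_le _ _).trans (max_le (by simp) ?_)
  exact (natDegree_C_mul_le _ _).trans natDegree_X_le

theorem pole (P : K[X]) (hP : 0 < P.natDegree) (η : K) (r : ℕ)
    (hr : 0 < r) (hη : ∀ k, 0 < k → k < r → η ^ k ≠ 1) (α : ℕ → K) (hα : α 0 ≠ 0) (Z : Finset K)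
    (hZ1 : ∀ z ∈ Z, ∀ k < r, 1 - z * η ^ k ≠ 0)
    (hZ2 : ∀ z ∈ Z, ∑ k ∈ range r, α k * P.eval (1 - z * η ^ k)⁻¹ = 0) :
    Z.card ≤ P.natDegree * r := by
  classical
  have hP0 : P ≠ 0 := by
    rintro rfl
    simp at hP
  set D := P.natDegree with hD
  set lin : ℕ → K[X] := fun k => 1 - C (η ^ k) * X with hlin
  set Φ : K[X] := ∑ k ∈ range r, C (α k) * (P.reverse.comp (lin k)) *
    ∏ k' ∈ (range r).erase k, (lin k') ^ D with hΦ
  have hlineval : ∀ (k : ℕ) (z : K), (lin k).eval z = 1 - z * η ^ k := by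
    intro k z
    simp only [hlin, eval_sub, eval_one, eval_mul, eval_C, eval_X]
    ring
  have h1 : Φ.eval 1 ≠ 0 := by
    rw [hΦ, eval_finsetSum, Finset.sum_eq_single 0]
    · rw [eval_mul, eval_mul, eval_C, eval_comp, hlineval, pow_zero, mul_one, sub_self,
        ← coeff_zero_eq_eval_zero, coeff_zero_reverse, eval_prod]
      refine mul_ne_zero (mul_ne_zero hα ?_) ?_
      · rw [Ne, leadingCoeff_eq_zero]
        exact hP0
      · rw [prod_ne_zero_iff]
        intro k hk
        rw [mem_erase, mem_range] at hk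
        rw [eval_pow, hlineval, one_mul]
        refine pow_ne_zero _ (sub_ne_zero.2 (Ne.symm (hη k (by omega) hk.2)))
    · intro k _ hk0
      rw [eval_mul, eval_prod]
      refine mul_eq_zero_of_right _ (prod_eq_zero (i := 0) ?_ ?_)
      · rw [mem_erase, mem_range]; exact ⟨Ne.symm hk0, hr⟩
      · rw [eval_pow, hlineval, pow_zero, mul_one, sub_self, zero_pow hP.ne']
    · intro h
      exact absurd (mem_range.2 hr) h
  have hΦ0 : Φ ≠ 0 := by
    intro h
    apply h1
    rw [h, eval_zero]
  have hdeg : Φ.natDegree ≤ D * r := by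
    rw [hΦ]
    refine natDegree_sum_le_of_forall_le _ _ (fun k hk => ?_)
    have a1 : (C (α k) * (P.reverse.comp (lin k))).natDegree ≤ D := by
      refine (natDegree_C_mul_le _ _).trans ?_
      refine natDegree_comp_le.trans ?_
      have b1 : P.reverse.natDegree ≤ D := reverse_natDegree_le P
      have b2 := natDegree_lin (η ^ k)
      calc P.reverse.natDegree * (lin k).natDegree ≤ D * 1 := Nat.mul_le_mul b1 b2
        _ = D := mul_one D
    have a2 : (∏ k' ∈ (range r).erase k, (lin k') ^ D).natDegree ≤ (r - 1) * D := by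
      refine (natDegree_prod_le _ _).trans ?_
      refine (sum_le_card_nsmul _ _ D ?_).trans ?_
      · intro k' _
        refine natDegree_pow_le.trans ?_
        have b2 := natDegree_lin (η ^ k')
        calc D * (lin k').natDegree ≤ D * 1 := Nat.mul_le_mul_left _ b2
          _ = D := mul_one D
      · rw [card_erase_of_mem hk, card_range, smul_eq_mul]
    have a3 := natDegree_mul_le (p := C (α k) * (P.reverse.comp (lin k)))
      (q := ∏ k' ∈ (range r).erase k, (lin k') ^ D)
    have a4 : D + (r - 1) * D = D * r := by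
      obtain ⟨r', rfl⟩ : ∃ r', r = r' + 1 := ⟨r - 1, by omega⟩
      simp only [Nat.add_sub_cancel]
      ring
    omega
  have hsub : Z ⊆ Φ.roots.toFinset := by
    intro z hz
    rw [Multiset.mem_toFinset, mem_roots hΦ0, IsRoot.def, hΦ, eval_finsetSum]
    have key : ∀ k ∈ range r, (C (α k) * (P.reverse.comp (lin k)) *
        ∏ k' ∈ (range r).erase k, (lin k') ^ D).eval z =
        (∏ k' ∈ range r, (1 - z * η ^ k') ^ D) * (α k * P.eval (1 - z * η ^ k)⁻¹) := by
      intro k hk
      have hne := hZ1 z hz k (mem_range.1 hk)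
      rw [← mul_prod_erase _ _ hk, eval_mul, eval_mul, eval_C, eval_comp, hlineval, eval_prod,
        reverse_eval P hne, ← hD]
      have : ∏ j ∈ (range r).erase k, eval z (lin j ^ D) =
          ∏ j ∈ (range r).erase k, (1 - z * η ^ j) ^ D := by
        refine prod_congr rfl fun j _ => ?_
        rw [eval_pow, hlineval]
      rw [this]
      ring
    rw [Finset.sum_congr rfl key, ← mul_sum, hZ2 z hz, mul_zero]
  have h3 := card_le_card hsub
  have h4 := Multiset.toFinset_card_le Φ.roots
  have h5 := card_roots' Φ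
  omega

end Pool.Agent.U784.RG
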