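import Mathlib
import Pool.Agent.U784.RG.Pole

/-!
# Nonvanishing of character sums of rational functions on the roots of unity of order `3^m`
-/

set_option autoImplicit false

namespace Pool.Agent.U784.RG

open Polynomial Finset

lemma lte {c : ℕ} (hc : 1 < c) (h3 : 3 ∣ c - 1) {k t : ℕ} (hk : k ≠ 0) :
    3 ^ t ∣ c ^ k - 1 ↔ t ≤ padicValNat 3 (c - 1) + padicValNat 3 k := by
  have hx : ¬ 3 ∣ c := by omega
  have h1 : padicValNat 3 (c ^ k - 1 ^ k) = padicValNat 3 (c - 1) + padicValNat 3 k :=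
    padicValNat.pow_sub_pow (p := 3) (by decide) hc h3 hx hk
  rw [one_pow] at h1
  have h2 : 1 < c ^ k := Nat.one_lt_pow hk hc
  rw [padicValNat_dvd_iff_le (by omega), h1]

lemma four_dvd {m k : ℕ} : 3 ^ (m + 1) ∣ 4 ^ k - 1 ↔ 3 ^ m ∣ k := by
  rcases Nat.eq_zero_or_pos k with rfl | hk
  · simp
  · rw [lte (by norm_num) (by norm_num) hk.ne', padicValNat_dvd_iff_le hk.ne']
    have : padicValNat 3 (4 - 1) = 1 := by
      norm_num
    rw [this]
    omega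

lemma sum_shift {A : Type*} [AddCommGroup A] (f : ℕ → A) (n : ℕ) (hf : ∀ k, f (k + n) = f k)
    (a : ℕ) : ∑ j ∈ range n, f (j + a) = ∑ j ∈ range n, f j := by
  induction a with
  | zero => simp
  | succ a ih =>
    rw [← ih]
    have h1 := Finset.sum_range_succ (fun j => f (j + a)) n
    have h2 := Finset.sum_range_succ' (fun j => f (j + a)) n
    rw [h1] at h2
    have h3 : f (n + a) = f (0 + a) := by
      rw [zero_add, add_comm, hf]
    rw [h3] at h2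
    have h4 := add_right_cancel h2
    rw [h4]
    refine sum_congr rfl fun j _ => ?_
    congr 1
    omega

section struct

variable {L : Type*} [Field L]

lemma pow_four_eq {m : ℕ} {ζ : L} (hζ : IsPrimitiveRoot ζ (3 ^ (m + 1))) {j k : ℕ} (hjk : j ≤ k) :
    ζ ^ 4 ^ j = ζ ^ 4 ^ k ↔ 3 ^ m ∣ k - j := by
  have h1 : ζ ^ 4 ^ j = ζ ^ 4 ^ k ↔ 3 ^ (m + 1) ∣ 4 ^ k - 4 ^ j := by
    have h4 : 4 ^ j ≤ 4 ^ k := Nat.pow_le_pow_right (by norm_num) hjk
    have hz : ζ ^ 4 ^ j ≠ 0 := pow_ne_zero _ (hζ.ne_zero (by positivity))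
    rw [← hζ.pow_eq_one_iff_dvd]
    have h5 : ζ ^ 4 ^ k = ζ ^ 4 ^ j * ζ ^ (4 ^ k - 4 ^ j) := by
      rw [← pow_add]; congr 1; omega
    rw [h5]
    constructor
    · intro h
      exact (mul_left_cancel₀ hz (by rw [mul_one]; exact h)).symm
    · intro h
      rw [h, mul_one]
  rw [h1, ← four_dvd (m := m) (k := k - j)]
  have h6 : 4 ^ k - 4 ^ j = 4 ^ j * (4 ^ (k - j) - 1) := by
    rw [Nat.mul_sub, ← pow_add, mul_one]
    congr 2
    omega
  rw [h6]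
  have hcop : (3 ^ (m + 1)).Coprime (4 ^ j) := Nat.Coprime.pow _ _ (by norm_num)
  exact ⟨fun h => hcop.dvd_of_dvd_mul_left h, fun h => Dvd.dvd.mul_left h _⟩

lemma inj_four {m : ℕ} {ζ : L} (hζ : IsPrimitiveRoot ζ (3 ^ (m + 1))) :
    Set.InjOn (fun j => ζ ^ 4 ^ j) (range (3 ^ m) : Set ℕ) := by
  have key : ∀ j ∈ range (3 ^ m), ∀ k ∈ range (3 ^ m), j ≤ k → ζ ^ 4 ^ j = ζ ^ 4 ^ k → j = k := by
    intro j hj k hk hjk h
    rw [mem_range] at hj hk
    rw [pow_four_eq hζ hjk] at h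
    rcases Nat.eq_zero_or_pos (k - j) with h0 | h0
    · omega
    · have := Nat.le_of_dvd h0 h
      omega
  intro j hj k hk h
  simp only [mem_coe] at hj hk
  rcases le_total j k with h1 | h1
  · exact key j hj k hk h1 h
  · exact (key k hk j hj h1 h.symm).symm

/-- no element `≡ 1 (mod 3)` is minus a power of four -/
lemma no_neg {m : ℕ} {ζ : L} (hζ : IsPrimitiveRoot ζ (3 ^ (m + 1))) {x : ℕ} (hx : x % 3 = 1) (j : ℕ) :
    ζ ^ x ≠ (ζ ^ 4 ^ j)⁻¹ := by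
  intro h
  have hz : ζ ^ 4 ^ j ≠ 0 := pow_ne_zero _ (hζ.ne_zero (by positivity))
  have h1 : ζ ^ (x + 4 ^ j) = 1 := by
    rw [pow_add, h, inv_mul_cancel₀ hz]
  rw [hζ.pow_eq_one_iff_dvd] at h1
  have h2 : 3 ∣ x + 4 ^ j := (Dvd.intro_left (3 ^ m) (by rw [pow_succ])).trans h1
  have h3 : 4 ^ j % 3 = 1 := by
    rw [Nat.pow_mod]; simp
  omega

open Classical in
theorem struct {m : ℕ} {ζ : L} (hζ : IsPrimitiveRoot ζ (3 ^ (m + 1))) :
    nthRootsFinset (3 ^ (m + 1)) (1 : L) \ nthRootsFinset (3 ^ m) (1 : L) =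
      ((range (3 ^ m)).image (fun j => ζ ^ 4 ^ j)) ∪ ((range (3 ^ m)).image (fun j => (ζ ^ 4 ^ j)⁻¹)) ∧
    Disjoint ((range (3 ^ m)).image (fun j => ζ ^ 4 ^ j))
      ((range (3 ^ m)).image (fun j => (ζ ^ 4 ^ j)⁻¹)) := by
  have hζ3 : IsPrimitiveRoot (ζ ^ 3) (3 ^ m) := by
    refine hζ.pow (by positivity) ?_
    rw [pow_succ']
  have hc1 : (nthRootsFinset (3 ^ (m + 1)) (1 : L)).card = 3 ^ (m + 1) := hζ.card_nthRootsFinset
  have hc2 : (nthRootsFinset (3 ^ m) (1 : L)).card = 3 ^ m := hζ3.card_nthRootsFinset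
  have hp1 : 0 < 3 ^ (m + 1) := by positivity
  have hp2 : 0 < 3 ^ m := by positivity
  have hsub : nthRootsFinset (3 ^ m) (1 : L) ⊆ nthRootsFinset (3 ^ (m + 1)) (1 : L) := by
    intro z hz
    rw [mem_nthRootsFinset hp2] at hz
    rw [mem_nthRootsFinset hp1, pow_succ, pow_mul, hz, one_pow]
  have hc3 : (nthRootsFinset (3 ^ (m + 1)) (1 : L) \ nthRootsFinset (3 ^ m) (1 : L)).card =
      3 ^ m + 3 ^ m := by
    rw [card_sdiff_of_subset hsub, hc1, hc2, pow_succ]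
    omega
  have hmem : ∀ j, ζ ^ 4 ^ j ∈ nthRootsFinset (3 ^ (m + 1)) (1 : L) \ nthRootsFinset (3 ^ m) (1 : L) := by
    intro j
    rw [mem_sdiff, mem_nthRootsFinset hp1, mem_nthRootsFinset hp2]
    refine ⟨by rw [← pow_mul, mul_comm, pow_mul, hζ.pow_eq_one, one_pow], ?_⟩
    rw [← pow_mul, hζ.pow_eq_one_iff_dvd]
    intro h
    have h1 : 3 ∣ 4 ^ j := by
      rw [pow_succ, mul_comm (4 ^ j)] at h
      exact Nat.dvd_of_mul_dvd_mul_left hp2 h
    have h3 : 4 ^ j % 3 = 1 := by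
      rw [Nat.pow_mod]; simp
    omega
  have hmem' : ∀ j, (ζ ^ 4 ^ j)⁻¹ ∈
      nthRootsFinset (3 ^ (m + 1)) (1 : L) \ nthRootsFinset (3 ^ m) (1 : L) := by
    intro j
    have h := hmem j
    rw [mem_sdiff, mem_nthRootsFinset hp1, mem_nthRootsFinset hp2] at h ⊢
    rw [inv_pow, inv_pow, h.1, inv_one, inv_eq_one]
    exact ⟨rfl, h.2⟩
  have hdisj : Disjoint ((range (3 ^ m)).image (fun j => ζ ^ 4 ^ j))
      ((range (3 ^ m)).image (fun j => (ζ ^ 4 ^ j)⁻¹)) := by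
    rw [disjoint_left]
    intro z h1 h2
    rw [mem_image] at h1 h2
    obtain ⟨j, _, rfl⟩ := h1
    obtain ⟨k, _, hk⟩ := h2
    exact no_neg hζ (x := 4 ^ j) (by rw [Nat.pow_mod]; simp) k hk.symm
  refine ⟨?_, hdisj⟩
  symm
  apply eq_of_subset_of_card_le
  · intro z hz
    rw [mem_union, mem_image, mem_image] at hz
    rcases hz with ⟨j, _, rfl⟩ | ⟨j, _, rfl⟩
    · exact hmem j
    · exact hmem' j
  · rw [hc3, card_union_of_disjoint hdisj, card_image_of_injOn (inj_four hζ), card_image_of_injOn]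
    · rw [card_range]
    · intro j hj k hk h
      exact inj_four hζ hj hk (inv_injective h)

open Classical in
theorem sum_struct {m : ℕ} {ζ : L} (hζ : IsPrimitiveRoot ζ (3 ^ (m + 1))) (F : L → L) :
    ∑ z ∈ nthRootsFinset (3 ^ (m + 1)) (1 : L) \ nthRootsFinset (3 ^ m) (1 : L), F z =
      ∑ j ∈ range (3 ^ m), (F (ζ ^ 4 ^ j) + F (ζ ^ 4 ^ j)⁻¹) := by
  obtain ⟨h1, h2⟩ := struct hζ
  rw [h1, sum_union h2, sum_image (inj_four hζ), sum_image, sum_add_distrib]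
  intro j hj k hk h
  exact inj_four hζ hj hk (inv_injective h)

/-- powers with exponent `≡ 1 (mod 3)` -/
lemma exists_kappa {m : ℕ} {ζ : L} (hζ : IsPrimitiveRoot ζ (3 ^ (m + 1))) {x : ℕ} (hx : x % 3 = 1) :
    ∃ κ, ζ ^ x = ζ ^ 4 ^ κ := by
  classical
  have hp1 : 0 < 3 ^ (m + 1) := by positivity
  have hp2 : 0 < 3 ^ m := by positivity
  have h : ζ ^ x ∈ nthRootsFinset (3 ^ (m + 1)) (1 : L) \ nthRootsFinset (3 ^ m) (1 : L) := by
    rw [mem_sdiff, mem_nthRootsFinset hp1, mem_nthRootsFinset hp2]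
    refine ⟨by rw [← pow_mul, mul_comm, pow_mul, hζ.pow_eq_one, one_pow], ?_⟩
    rw [← pow_mul, hζ.pow_eq_one_iff_dvd]
    intro h
    have h1 : 3 ∣ x := by
      rw [pow_succ, mul_comm x] at h
      exact Nat.dvd_of_mul_dvd_mul_left hp2 h
    omega
  rw [(struct hζ).1, mem_union, mem_image, mem_image] at h
  rcases h with ⟨j, _, hj⟩ | ⟨j, _, hj⟩
  · exact ⟨j, hj.symm⟩
  · exact absurd hj.symm (no_neg hζ hx j)

end struct

end Pool.Agent.U784.RG
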