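import Mathlib
import Pool.Agent.U784.RG.Cyc

/-!
# Nonvanishing of character sums of rational functions on the roots of unity of order `3^m`
-/

set_option autoImplicit false

namespace Pool.Agent.U784.RG

open Polynomial Finset

variable (p : ℕ) [Fact p.Prime] {L : Type} [Field L] [Algebra (ZMod p) L] [CharP L p]

/-- the sum `∑_j x^j P(1 / (1 - ζ^(4^j)))` -/
noncomputable def HH (P : (ZMod p)[X]) (n : ℕ) (ζ x : L) : L :=
  ∑ j ∈ range n, x ^ j * aeval ((1 - ζ ^ 4 ^ j)⁻¹) P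

lemma HH_frob (hp3 : p ≠ 3) {m : ℕ} {ζ : L} (hζ : IsPrimitiveRoot ζ (3 ^ (m + 1)))
    (P : (ZMod p)[X]) {x : L} (hx : x ^ 3 ^ m = 1) (h : HH p P (3 ^ m) ζ x = 0) :
    HH p P (3 ^ m) ζ (x ^ p ^ 2) = 0 := by
  have : ExpChar L p := ExpChar.prime Fact.out
  set φ : L →+* L := iterateFrobenius L p 2 with hφ
  have hφx : ∀ y : L, φ y = y ^ p ^ 2 := fun y => iterateFrobenius_def p 2 y
  have hp1 : (p ^ 2) % 3 = 1 := by
    have h1 : p % 3 ≠ 0 := by
      intro h0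
      have h2 : 3 ∣ p := Nat.dvd_of_mod_eq_zero h0
      exact hp3 ((Nat.prime_dvd_prime_iff_eq Nat.prime_three (Fact.out : p.Prime)).1 h2).symm
    rw [Nat.pow_mod]
    have h3 : p % 3 = 1 ∨ p % 3 = 2 := by omega
    rcases h3 with h3 | h3 <;> rw [h3]
  obtain ⟨κ, hκ⟩ := exists_kappa hζ hp1
  have haev : ∀ w : L, φ (aeval w P) = aeval (φ w) P := by
    intro w
    rw [aeval_def, aeval_def, hom_eval₂]
    congr 1
    exact Subsingleton.elim _ _
  have h1 := congrArg φ h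
  unfold HH at h1 ⊢
  rw [map_zero, map_sum] at h1
  set f : ℕ → L := fun j => (x ^ p ^ 2) ^ j * aeval ((1 - ζ ^ 4 ^ j)⁻¹) P with hf
  have hper : ∀ k, f (k + 3 ^ m) = f k := by
    intro k
    have e1 : ζ ^ 4 ^ (k + 3 ^ m) = ζ ^ 4 ^ k := by
      symm
      rw [pow_four_eq hζ (Nat.le_add_right _ _)]
      simp
    have e2 : (x ^ p ^ 2) ^ (k + 3 ^ m) = (x ^ p ^ 2) ^ k := by
      rw [pow_add, ← pow_mul _ (p ^ 2) (3 ^ m), mul_comm (p ^ 2), pow_mul _ (3 ^ m), hx, one_pow,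
        mul_one]
    simp only [hf, e1, e2]
  have h2 := sum_shift f (3 ^ m) hper κ
  have h3 : ∑ j ∈ range (3 ^ m), f (j + κ) = (x ^ p ^ 2) ^ κ *
      ∑ j ∈ range (3 ^ m), φ (x ^ j * aeval ((1 - ζ ^ 4 ^ j)⁻¹) P) := by
    rw [mul_sum]
    refine sum_congr rfl fun j _ => ?_
    have e3 : φ ((1 - ζ ^ 4 ^ j)⁻¹) = (1 - ζ ^ 4 ^ (j + κ))⁻¹ := by
      rw [map_inv₀, map_sub, map_one, hφx]
      congr 2
      rw [← pow_mul, mul_comm, pow_mul, hκ, ← pow_mul, ← pow_add, add_comm κ j]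
    rw [map_mul, map_pow, haev, e3, hφx]
    simp only [hf]
    rw [pow_add]
    ring
  rw [h1, mul_zero] at h3
  rw [← h2, h3]

lemma HH_frob_iter (hp3 : p ≠ 3) {m : ℕ} {ζ : L} (hζ : IsPrimitiveRoot ζ (3 ^ (m + 1)))
    (P : (ZMod p)[X]) {x : L} (hx : x ^ 3 ^ m = 1) (h : HH p P (3 ^ m) ζ x = 0) (t : ℕ) :
    HH p P (3 ^ m) ζ (x ^ (p ^ 2) ^ t) = 0 := by
  induction t with
  | zero => simpa using h
  | succ t ih =>
    rw [pow_succ, pow_mul]
    refine HH_frob p hp3 hζ P ?_ ih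
    rw [← pow_mul, mul_comm, pow_mul, hx, one_pow]

/-- all the translates of the zero by roots of unity -/
lemma HH_tau (hp3 : p ≠ 3) {m s : ℕ} (hs : padicValNat 3 (p ^ 2 - 1) = s) (hsm : s ≤ m)
    {ζ ξ : L} (hζ : IsPrimitiveRoot ζ (3 ^ (m + 1))) (hξ : IsPrimitiveRoot ξ (3 ^ m))
    (P : (ZMod p)[X]) (h : HH p P (3 ^ m) ζ ξ = 0) (l : ℕ) :
    HH p P (3 ^ m) ζ (ξ * (ξ ^ 3 ^ s) ^ l) = 0 := by
  classical
  have hpp : 2 ≤ p := (Fact.out : p.Prime).two_le
  have hq1 : 1 < p ^ 2 := Nat.one_lt_pow (by norm_num) (by omega)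
  have h3q : 3 ∣ p ^ 2 - 1 := by
    have h1 : p % 3 ≠ 0 := by
      intro h0
      have h2 : 3 ∣ p := Nat.dvd_of_mod_eq_zero h0
      exact hp3 ((Nat.prime_dvd_prime_iff_eq Nat.prime_three (Fact.out : p.Prime)).1 h2).symm
    have h2 : (p ^ 2) % 3 = 1 := by
      rw [Nat.pow_mod]
      have h3 : p % 3 = 1 ∨ p % 3 = 2 := by omega
      rcases h3 with h3 | h3 <;> rw [h3]
    omega
  have hlte : ∀ k t, k ≠ 0 → (3 ^ t ∣ (p ^ 2) ^ k - 1 ↔ t ≤ s + padicValNat 3 k) := by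
    intro k t hk
    rw [lte hq1 h3q hk, hs]
  set M := 3 ^ (m - s) with hM
  have hMpos : 0 < M := by rw [hM]; positivity
  have hMs : 3 ^ s * M = 3 ^ m := by rw [hM, ← pow_add]; congr 1; omega
  set τ := ξ ^ 3 ^ s with hτ
  have hτp : IsPrimitiveRoot τ M := hξ.pow (by positivity) hMs.symm
  have hξ0 : ξ ≠ 0 := hξ.ne_zero (by positivity)
  set T : Finset L := (range M).image (fun l => ξ * τ ^ l) with hT
  set B : Finset L := (range M).image (fun t => ξ ^ (p ^ 2) ^ t) with hB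
  have hBT : B ⊆ T := by
    intro z hz
    rw [hB, mem_image] at hz
    obtain ⟨t, _, rfl⟩ := hz
    rcases Nat.eq_zero_or_pos t with rfl | ht
    · rw [hT, mem_image]
      exact ⟨0, mem_range.2 hMpos, by simp⟩
    have h1 : 3 ^ s ∣ (p ^ 2) ^ t - 1 := (hlte t s ht.ne').2 (by omega)
    obtain ⟨y, hy⟩ := h1
    have h2 : 1 < (p ^ 2) ^ t := Nat.one_lt_pow ht.ne' hq1
    rw [hT, mem_image]
    refine ⟨y % M, mem_range.2 (Nat.mod_lt _ hMpos), ?_⟩
    rw [← pow_eq_pow_mod y hτp.pow_eq_one]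
    have h3 : (p ^ 2) ^ t = 1 + 3 ^ s * y := by omega
    rw [h3, pow_add, pow_one, hτ, pow_mul]
  have hBinj : Set.InjOn (fun t => ξ ^ (p ^ 2) ^ t) (range M : Set ℕ) := by
    have key : ∀ t t', t < t' → t' < M → ξ ^ (p ^ 2) ^ t ≠ ξ ^ (p ^ 2) ^ t' := by
      intro t t' h1 h2 h3
      have h4 : (p ^ 2) ^ t ≤ (p ^ 2) ^ t' := Nat.pow_le_pow_right (by positivity) h1.le
      have h5 : ξ ^ ((p ^ 2) ^ t' - (p ^ 2) ^ t) = 1 := by
        apply mul_left_cancel₀ (pow_ne_zero ((p ^ 2) ^ t) hξ0)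
        rw [← pow_add, mul_one, h3]
        congr 1
        omega
      rw [hξ.pow_eq_one_iff_dvd] at h5
      have h6 : (p ^ 2) ^ t' - (p ^ 2) ^ t = (p ^ 2) ^ t * ((p ^ 2) ^ (t' - t) - 1) := by
        rw [Nat.mul_sub, ← pow_add, mul_one]
        congr 2
        omega
      rw [h6] at h5
      have hcop : (3 ^ m).Coprime ((p ^ 2) ^ t) := by
        refine Nat.Coprime.pow _ _ ?_
        refine Nat.Coprime.pow_right _ ?_
        rw [Nat.coprime_primes Nat.prime_three (Fact.out : p.Prime)]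
        exact Ne.symm hp3
      have h7 := hcop.dvd_of_dvd_mul_left h5
      rw [hlte _ _ (by omega)] at h7
      have h8 : 3 ^ (m - s) ∣ t' - t := by
        rw [padicValNat_dvd_iff_le (by omega)]
        omega
      have h9 := Nat.le_of_dvd (by omega) h8
      omega
    intro t ht t' ht' h1
    rw [mem_coe, mem_range] at ht ht'
    rcases Nat.lt_trichotomy t t' with h2 | h2 | h2
    · exact absurd h1 (key t t' h2 ht')
    · exact h2
    · exact absurd h1.symm (key t' t h2 ht)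
  have hcB : B.card = M := by
    rw [hB, card_image_of_injOn hBinj, card_range]
  have hcT : T.card ≤ M := by
    rw [hT]
    exact card_image_le.trans (by rw [card_range])
  have hBTe : B = T := eq_of_subset_of_card_le hBT (by omega)
  have hmem : ξ * τ ^ l ∈ T := by
    rw [hT, mem_image]
    exact ⟨l % M, mem_range.2 (Nat.mod_lt _ hMpos), by rw [← pow_eq_pow_mod l hτp.pow_eq_one]⟩
  rw [← hBTe, hB, mem_image] at hmem
  obtain ⟨t, _, ht⟩ := hmem
  rw [← ht]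
  exact HH_frob_iter p hp3 hζ P hξ.pow_eq_one h t

lemma sum_range_mul_eq {A : Type*} [AddCommMonoid A] (f : ℕ → A) (M K : ℕ) :
    ∑ j ∈ range (M * K), f j = ∑ i ∈ range M, ∑ k ∈ range K, f (i + M * k) := by
  induction K with
  | zero => simp
  | succ K ih =>
    rw [Nat.mul_succ, Finset.sum_range_add, ih, ← sum_add_distrib]
    refine sum_congr rfl fun i _ => ?_
    rw [sum_range_succ, add_comm i (M * K)]

/-- the local sums vanish -/
lemma HH_local (hp3 : p ≠ 3) {m s : ℕ} (hs : padicValNat 3 (p ^ 2 - 1) = s) (hsm : s ≤ m)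
    {ζ ξ : L} (hζ : IsPrimitiveRoot ζ (3 ^ (m + 1))) (hξ : IsPrimitiveRoot ξ (3 ^ m))
    (P : (ZMod p)[X]) (h : HH p P (3 ^ m) ζ ξ = 0) {i : ℕ} (hi : i < 3 ^ (m - s)) :
    ∑ k ∈ range (3 ^ s), ξ ^ (i + 3 ^ (m - s) * k) *
      aeval ((1 - ζ ^ 4 ^ (i + 3 ^ (m - s) * k))⁻¹) P = 0 := by
  classical
  set M := 3 ^ (m - s) with hM
  have hMpos : 0 < M := by rw [hM]; positivity
  have hMs : 3 ^ s * M = 3 ^ m := by rw [hM, ← pow_add]; congr 1; omega
  set τ := ξ ^ 3 ^ s with hτ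
  have hτp : IsPrimitiveRoot τ M := hξ.pow (by positivity) hMs.symm
  set A : ℕ → L := fun i => ∑ k ∈ range (3 ^ s), ξ ^ (i + M * k) *
      aeval ((1 - ζ ^ 4 ^ (i + M * k))⁻¹) P with hA
  set F : L[X] := ∑ i ∈ range M, C (A i) * X ^ i with hF
  have hFc : F.coeff i = A i := by
    rw [hF, finsetSum_coeff, Finset.sum_eq_single i]
    · simp
    · intro j _ hj
      rw [coeff_C_mul, coeff_X_pow, if_neg (Ne.symm hj), mul_zero]
    · intro h0
      exact absurd (mem_range.2 hi) h0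
  have hFdeg : F.natDegree < M := by
    have : F.natDegree ≤ M - 1 := by
      rw [hF]
      refine natDegree_sum_le_of_forall_le _ _ (fun j hj => ?_)
      rw [mem_range] at hj
      refine (natDegree_C_mul_X_pow_le _ _).trans (by omega)
    omega
  have hF0 : F = 0 := by
    refine eq_zero_of_natDegree_lt_card_of_eval_eq_zero' F ((range M).image (fun l => τ ^ l)) ?_ ?_
    · intro z hz
      rw [mem_image] at hz
      obtain ⟨l, _, rfl⟩ := hz
      have h1 := HH_tau p hp3 hs hsm hζ hξ P h l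
      unfold HH at h1
      rw [← hMs, mul_comm (3 ^ s) M, sum_range_mul_eq] at h1
      rw [← h1, hF, eval_finsetSum]
      refine sum_congr rfl fun i' _ => ?_
      rw [eval_mul, eval_C, eval_pow, eval_X, hA]
      simp only
      rw [sum_mul]
      refine sum_congr rfl fun k _ => ?_
      rw [mul_pow]
      have e1 : ((ξ ^ 3 ^ s) ^ l) ^ (i' + M * k) = (τ ^ l) ^ i' := by
        rw [← hτ, pow_add, ← pow_mul _ l (M * k)]
        have : l * (M * k) = M * (l * k) := by ring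
        rw [this, pow_mul, hτp.pow_eq_one, one_pow, mul_one]
      rw [e1]
      ring
    · rw [card_image_of_injOn, card_range]
      · exact hFdeg
      · intro a ha b hb hab
        rw [mem_coe, mem_range] at ha hb
        exact hτp.pow_inj ha hb hab
  have h2 : A i = 0 := by rw [← hFc, hF0, coeff_zero]
  exact h2

/-- the nonvanishing theorem -/
theorem HH_ne_zero (hp3 : p ≠ 3) {m s : ℕ} (hs : padicValNat 3 (p ^ 2 - 1) = s) (hsm : 2 * s ≤ m)
    {ζ ξ : L} (hζ : IsPrimitiveRoot ζ (3 ^ (m + 1))) (hξ : IsPrimitiveRoot ξ (3 ^ m))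
    (P : (ZMod p)[X]) (hP : 0 < P.natDegree) (hbig : P.natDegree * 3 ^ s < 3 ^ (m - 2 * s)) :
    HH p P (3 ^ m) ζ ξ ≠ 0 := by
  classical
  intro h
  set M := 3 ^ (m - s) with hM
  have hMpos : 0 < M := by rw [hM]; positivity
  have hMs : 3 ^ s * M = 3 ^ m := by rw [hM, ← pow_add]; congr 1; omega
  have hMM : 3 ^ s * 3 ^ (m - 2 * s) = M := by rw [hM, ← pow_add]; congr 1; omega
  have hζ0 : ζ ≠ 0 := hζ.ne_zero (by positivity)
  have hξ0 : ξ ≠ 0 := hξ.ne_zero (by positivity)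
  set c := 4 ^ M with hc
  have hc1 : 1 < c := Nat.one_lt_pow hMpos.ne' (by norm_num)
  have hcv : ∀ t, 3 ^ t ∣ c - 1 ↔ t ≤ 1 + (m - s) := by
    intro t
    rw [hc, lte (by norm_num) (by norm_num) hMpos.ne', hM, padicValNat.prime_pow]
    have : padicValNat 3 (4 - 1) = 1 := by norm_num
    rw [this]
  obtain ⟨y, hy⟩ := (hcv (1 + (m - s))).2 le_rfl
  have hy3 : ¬ 3 ∣ y := by
    intro h3
    obtain ⟨y', rfl⟩ := h3
    have : 3 ^ (1 + (m - s) + 1) ∣ c - 1 := ⟨y', by rw [hy, pow_succ]; ring⟩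
    have := (hcv _).1 this
    omega
  set η := ζ ^ (c - 1) with hη
  have hηs : η ^ 3 ^ s = 1 := by
    rw [hη, ← pow_mul, hζ.pow_eq_one_iff_dvd, hy]
    refine ⟨y, ?_⟩
    have : 3 ^ (m + 1) = 3 ^ (1 + (m - s)) * 3 ^ s := by rw [← pow_add]; congr 1; omega
    rw [this]; ring
  have hηk : ∀ k, 0 < k → k < 3 ^ s → η ^ k ≠ 1 := by
    intro k hk1 hk2 h1
    rw [hη, ← pow_mul, hζ.pow_eq_one_iff_dvd, hy] at h1
    have : 3 ^ (m + 1) = 3 ^ (1 + (m - s)) * 3 ^ s := by rw [← pow_add]; congr 1; omega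
    rw [this, mul_assoc] at h1
    have h2 := Nat.dvd_of_mul_dvd_mul_left (by positivity) h1
    have hcop : (3 ^ s).Coprime y := Nat.Coprime.pow_left _ ((Nat.Prime.coprime_iff_not_dvd Nat.prime_three).2 hy3)
    have h3 := hcop.dvd_of_dvd_mul_left h2
    have := Nat.le_of_dvd hk1 h3
    omega
  have hηc : η ^ c = η := by
    have h1 : 3 ^ s ∣ c - 1 := (hcv s).2 (by omega)
    obtain ⟨z, hz⟩ := h1
    have h2 : c = 1 + 3 ^ s * z := by omega
    rw [h2, pow_add, pow_one, pow_mul, hηs, one_pow, mul_one]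
  have hη4 : ∀ i', η ^ 4 ^ (3 ^ s * i') = η := by
    intro i'
    rcases Nat.eq_zero_or_pos (3 ^ s * i') with h0 | h0
    · rw [h0, pow_zero, pow_one]
    have h1 : 3 ^ (s + 1) ∣ 4 ^ (3 ^ s * i') - 1 := four_dvd.2 (Dvd.intro _ rfl)
    obtain ⟨z, hz⟩ := h1
    have h3 : 1 < 4 ^ (3 ^ s * i') := Nat.one_lt_pow h0.ne' (by norm_num)
    have h2 : 4 ^ (3 ^ s * i') = 1 + 3 ^ s * (3 * z) := by
      rw [pow_succ] at hz
      have : 3 ^ s * 3 * z = 3 ^ s * (3 * z) := by ring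
      omega
    rw [h2, pow_add, pow_one, pow_mul, hηs, one_pow, mul_one]
  -- the values
  have hval : ∀ i' k, ζ ^ 4 ^ (3 ^ s * i' + M * k) = ζ ^ 4 ^ (3 ^ s * i') * η ^ k := by
    intro i' k
    have h1 : ∀ k, (ζ ^ 4 ^ (3 ^ s * i')) ^ c ^ k = ζ ^ 4 ^ (3 ^ s * i') * η ^ k := by
      intro k
      induction k with
      | zero => simp
      | succ k ih =>
        have h2 : (ζ ^ 4 ^ (3 ^ s * i')) ^ c = ζ ^ 4 ^ (3 ^ s * i') * η := by
          have h3 : c = 1 + (c - 1) := by omega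
          rw [h3, pow_add, pow_one]
          congr 1
          rw [← pow_mul, mul_comm, pow_mul, ← hη, hη4]
        rw [pow_succ (n := k), pow_mul, ih, mul_pow, h2, ← pow_mul η, mul_comm k c, pow_mul η, hηc,
          pow_succ]
        ring
    rw [← h1 k, pow_add, pow_mul, hc, ← pow_mul 4 M k]
  set Z : Finset L := (range (3 ^ (m - 2 * s))).image (fun i' => ζ ^ 4 ^ (3 ^ s * i')) with hZ
  have hZcard : Z.card = 3 ^ (m - 2 * s) := by
    rw [hZ, card_image_of_injOn, card_range]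
    intro a ha b hb hab
    rw [mem_coe, mem_range] at ha hb
    have hle : ∀ a, a < 3 ^ (m - 2 * s) → 3 ^ s * a < 3 ^ m := by
      intro a ha
      calc 3 ^ s * a < 3 ^ s * 3 ^ (m - 2 * s) := Nat.mul_lt_mul_of_pos_left ha (by positivity)
        _ = M := hMM
        _ ≤ 3 ^ s * M := Nat.le_mul_of_pos_left _ (by positivity)
        _ = 3 ^ m := hMs
    have h1 := inj_four hζ (mem_coe.2 (mem_range.2 (hle a ha))) (mem_coe.2 (mem_range.2 (hle b hb))) hab
    exact Nat.eq_of_mul_eq_mul_left (by positivity) h1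
  have hdeg : (P.map (algebraMap (ZMod p) L)).natDegree = P.natDegree := natDegree_map _
  have hne1 : ∀ j, ζ ^ 4 ^ j ≠ 1 := by
    intro j h1
    rw [hζ.pow_eq_one_iff_dvd] at h1
    have h2 : 3 ∣ 4 ^ j := (Dvd.intro_left (3 ^ m) (by rw [pow_succ])).trans h1
    have h3 : 4 ^ j % 3 = 1 := by
      rw [Nat.pow_mod]; simp
    omega
  have hpole := pole (P.map (algebraMap (ZMod p) L)) (by rw [hdeg]; exact hP) η (3 ^ s)
    (by positivity) hηk (fun k => (ξ ^ M) ^ k) (by simp) Z ?_ ?_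
  · rw [hZcard, hdeg] at hpole
    omega
  · intro z hz k _
    rw [hZ, mem_image] at hz
    obtain ⟨i', _, rfl⟩ := hz
    rw [← hval, sub_ne_zero]
    exact (hne1 _).symm
  · intro z hz
    rw [hZ, mem_image] at hz
    obtain ⟨i', hi', rfl⟩ := hz
    rw [mem_range] at hi'
    have hiM : 3 ^ s * i' < M := by
      calc 3 ^ s * i' < 3 ^ s * 3 ^ (m - 2 * s) := Nat.mul_lt_mul_of_pos_left hi' (by positivity)
        _ = M := hMM
    have h1 := HH_local p hp3 hs (by omega) hζ hξ P h hiM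
    rw [← hM] at h1
    have h2 : ξ ^ (3 ^ s * i') * ∑ k ∈ range (3 ^ s), (ξ ^ M) ^ k *
        (P.map (algebraMap (ZMod p) L)).eval (1 - ζ ^ 4 ^ (3 ^ s * i') * η ^ k)⁻¹ = 0 := by
      rw [← h1, mul_sum]
      refine sum_congr rfl fun k _ => ?_
      rw [← hval, pow_add ξ (3 ^ s * i') (M * k), pow_mul ξ M k, eval_map_algebraMap]
      ring
    exact (mul_eq_zero.1 h2).resolve_left (pow_ne_zero _ hξ0)

end Pool.Agent.U784.RG
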