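import Mathlib

/-!
# A partial fraction decomposition

`(z^a + z^b) / ((z^a - 1)(z^b - 1))` for coprime `a`, `b`.
-/

set_option autoImplicit false

namespace Pool.Agent.U784.RG

open Polynomial Finset

variable {L : Type*} [Field L]

/-- `(z + 1) / (z - 1)` -/
def vv (z : L) : L := (z + 1) / (z - 1)

lemma vv_inv {z : L} (hz : z ≠ 0) : vv z⁻¹ = - vv z := by
  unfold vv
  rcases eq_or_ne z 1 with rfl | h1
  · simp
  · have h2 : z - 1 ≠ 0 := sub_ne_zero.2 h1
    have h3 : z⁻¹ - 1 ≠ 0 := by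
      rw [sub_ne_zero]
      intro h
      exact h1 (by rw [← inv_inv z, h, inv_one])
    rw [div_eq_iff h3]
    field_simp
    ring

/-- `(X^a - 1) / (X - ζ)` -/
noncomputable def QQ (a : ℕ) (ζ : L) : L[X] := ∑ i ∈ range a, X ^ i * C ζ ^ (a - 1 - i)

lemma QQ_mul {a : ℕ} {ζ : L} (h : ζ ^ a = 1) : QQ a ζ * (X - C ζ) = X ^ a - 1 := by
  unfold QQ
  rw [geom_sum₂_mul, ← C_pow, h, C_1]

lemma QQ_eval_self {a : ℕ} {ζ : L} (h : ζ ^ a = 1) : (QQ a ζ).eval ζ * ζ = a := by
  unfold QQ
  rw [eval_finsetSum, Finset.sum_mul]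
  have : ∀ i ∈ range a, (X ^ i * C ζ ^ (a - 1 - i) : L[X]).eval ζ * ζ = 1 := by
    intro i hi
    rw [mem_range] at hi
    simp only [eval_mul, eval_pow, eval_X, eval_C]
    rw [← pow_add, ← pow_succ, ← h]
    congr 1
    omega
  rw [Finset.sum_congr rfl this]
  simp

lemma QQ_eval_ne {a : ℕ} {ζ x : L} (h : ζ ^ a = 1) (hx : x ^ a = 1) (hne : x ≠ ζ) :
    (QQ a ζ).eval x = 0 := by
  have h1 := congrArg (eval x) (QQ_mul h)
  simp only [eval_mul, eval_sub, eval_X, eval_C, eval_pow, eval_one, hx, sub_self] at h1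
  rcases mul_eq_zero.1 h1 with h2 | h2
  · exact h2
  · exact absurd (sub_eq_zero.1 h2) hne

lemma QQ_eval_zero {a : ℕ} {ζ : L} (ha : 0 < a) (h : ζ ^ a = 1) : (QQ a ζ).eval 0 * ζ = 1 := by
  have h1 := congrArg (eval 0) (QQ_mul h)
  simp only [eval_mul, eval_sub, eval_X, eval_C, eval_pow, eval_one, zero_pow ha.ne'] at h1
  linear_combination -h1

lemma natDegree_QQ (a : ℕ) (ζ : L) : (QQ a ζ).natDegree ≤ a - 1 := by
  unfold QQ
  refine natDegree_sum_le_of_forall_le _ _ (fun i hi => ?_)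
  rw [mem_range] at hi
  rw [← C_pow]
  refine (natDegree_mul_C_le _ _).trans ?_
  refine (natDegree_X_pow_le _).trans ?_
  omega

/-- the roots of unity other than `1` -/
noncomputable def mu (L : Type*) [Field L] (a : ℕ) : Finset L := by
  classical exact (nthRootsFinset a (1 : L)).erase 1

lemma mem_mu {a : ℕ} (ha : 0 < a) {z : L} : z ∈ mu L a ↔ z ≠ 1 ∧ z ^ a = 1 := by
  classical
  unfold mu
  rw [mem_erase, mem_nthRootsFinset ha]

lemma sum_vv {a : ℕ} (ha : 0 < a) (h2 : (2 : L) ≠ 0) (b : ℕ) : ∑ ζ ∈ mu L a, vv (ζ ^ b) = 0 := by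
  have h : ∑ ζ ∈ mu L a, vv (ζ ^ b) = ∑ ζ ∈ mu L a, - vv (ζ ^ b) := by
    refine Finset.sum_bij' (fun ζ _ => ζ⁻¹) (fun ζ _ => ζ⁻¹) ?_ ?_ ?_ ?_ ?_
    · intro ζ hζ
      rw [mem_mu ha] at hζ ⊢
      refine ⟨fun h => hζ.1 (by rw [← inv_inv ζ, h, inv_one]), by rw [inv_pow, hζ.2, inv_one]⟩
    · intro ζ hζ
      rw [mem_mu ha] at hζ ⊢
      refine ⟨fun h => hζ.1 (by rw [← inv_inv ζ, h, inv_one]), by rw [inv_pow, hζ.2, inv_one]⟩
    · intro ζ _; exact inv_inv ζ
    · intro ζ _; exact inv_inv ζ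
    · intro ζ hζ
      rw [mem_mu ha] at hζ
      have hz : ζ ≠ 0 := by
        rintro rfl
        rw [zero_pow ha.ne'] at hζ
        exact zero_ne_one hζ.2
      rw [inv_pow, vv_inv (pow_ne_zero _ hz), neg_neg]
  rw [sum_neg_distrib] at h
  have h3 : (2 : L) * ∑ ζ ∈ mu L a, vv (ζ ^ b) = 0 := by linear_combination h
  exact (mul_eq_zero.1 h3).resolve_left h2

/-- the sum over the roots of unity in the decomposition -/
noncomputable def PS (L : Type*) [Field L] (a b : ℕ) : L[X] :=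
  ∑ ζ ∈ mu L a, C (vv (ζ ^ b) * ζ) * QQ a ζ

lemma PS_eval_root {a b : ℕ} (ha : 0 < a) {x : L} (hx1 : x ≠ 1) (hx : x ^ a = 1) :
    (PS L a b).eval x = a * vv (x ^ b) := by
  unfold PS
  rw [eval_finsetSum, Finset.sum_eq_single x]
  · rw [eval_mul, eval_C]
    have := QQ_eval_self hx
    linear_combination (vv (x ^ b)) * this
  · intro ζ hζ hne
    rw [mem_mu ha] at hζ
    rw [eval_mul, QQ_eval_ne hζ.2 hx (Ne.symm hne), mul_zero]
  · intro h
    exact absurd ((mem_mu ha).2 ⟨hx1, hx⟩) h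

lemma PS_eval_zero {a b : ℕ} (ha : 0 < a) (h2 : (2 : L) ≠ 0) : (PS L a b).eval 0 = 0 := by
  unfold PS
  rw [eval_finsetSum]
  refine Eq.trans (Finset.sum_congr rfl (fun ζ hζ => ?_)) (sum_vv ha h2 b)
  rw [mem_mu ha] at hζ
  rw [eval_mul, eval_C]
  have := QQ_eval_zero ha hζ.2
  linear_combination (vv (ζ ^ b)) * this

lemma natDegree_PS (a b : ℕ) : (PS L a b).natDegree ≤ a - 1 := by
  unfold PS
  refine natDegree_sum_le_of_forall_le _ _ (fun ζ _ => ?_)
  exact (natDegree_C_mul_le _ _).trans (natDegree_QQ a ζ)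

lemma natDegree_geom (a : ℕ) : (∑ i ∈ range a, (X : L[X]) ^ i).natDegree ≤ a - 1 := by
  refine natDegree_sum_le_of_forall_le _ _ (fun i hi => ?_)
  rw [mem_range] at hi
  refine (natDegree_X_pow_le _).trans ?_
  omega

lemma natDegree_pow_sub (a : ℕ) : ((X : L[X]) ^ a - 1).natDegree ≤ a := by
  refine (natDegree_sub_le _ _).trans ?_
  simp

lemma vv_mul {z : L} (hz : z ≠ 1) : vv z * (z - 1) = z + 1 := by
  unfold vv
  rw [div_mul_cancel₀ _ (sub_ne_zero.2 hz)]

/-- the decomposition -/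
theorem pf (a b : ℕ) (ha : 0 < a) (hb : 0 < b) (hab : a.Coprime b) (h2 : (2 : L) ≠ 0)
    (hca : (nthRootsFinset a (1 : L)).card = a) (hcb : (nthRootsFinset b (1 : L)).card = b) :
    C ((a : L) * b) * (X ^ a + X ^ b) = C (b : L) * (X ^ b - 1) * PS L a b
      + C (a : L) * (X ^ a - 1) * PS L b a
      + C 2 * X * (∑ i ∈ range a, X ^ i) * (∑ i ∈ range b, X ^ i) := by
  classical
  rw [← sub_eq_zero]
  set s : Finset L := insert 0 (nthRootsFinset a (1 : L) ∪ nthRootsFinset b (1 : L)) with hs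
  have hcard : a + b ≤ s.card := by
    have h0 : (0 : L) ∉ nthRootsFinset a (1 : L) ∪ nthRootsFinset b (1 : L) := by
      rw [mem_union, mem_nthRootsFinset ha, mem_nthRootsFinset hb, zero_pow ha.ne', zero_pow hb.ne']
      simp
    rw [hs, card_insert_of_notMem h0]
    have h1 := card_union_add_card_inter (nthRootsFinset a (1 : L)) (nthRootsFinset b (1 : L))
    have h3 : (nthRootsFinset a (1 : L) ∩ nthRootsFinset b (1 : L)).card ≤ 1 := by
      rw [card_le_one]
      have key : ∀ x ∈ nthRootsFinset a (1 : L) ∩ nthRootsFinset b (1 : L), x = 1 := by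
        intro x hx
        rw [mem_inter, mem_nthRootsFinset ha, mem_nthRootsFinset hb] at hx
        have : x ^ (a.gcd b) = 1 := pow_gcd_eq_one.2 ⟨hx.1, hx.2⟩
        rwa [Nat.Coprime.gcd_eq_one hab, pow_one] at this
      intro x hx y hy
      rw [key x hx, key y hy]
    omega
  refine eq_zero_of_natDegree_lt_card_of_eval_eq_zero' _ s ?_ ?_
  · intro x hx
    rw [hs, mem_insert, mem_union, mem_nthRootsFinset ha, mem_nthRootsFinset hb] at hx
    have hgeom : ∀ (n : ℕ) (y : L), y ≠ 1 → y ^ n = 1 → ∑ i ∈ range n, y ^ i = 0 := by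
      intro n y hy hyn
      have h := geom_sum_mul y n
      rw [hyn, sub_self] at h
      exact (mul_eq_zero.1 h).resolve_right (sub_ne_zero.2 hy)
    rcases eq_or_ne x 1 with rfl | hx1
    · simp only [eval_sub, eval_add, eval_mul, eval_C, eval_pow, eval_X, eval_one, one_pow,
        eval_finsetSum]
      simp
      ring
    rcases hx with rfl | hxa | hxb
    · simp only [eval_sub, eval_add, eval_mul, eval_C, eval_pow, eval_X, eval_one,
        PS_eval_zero ha h2, PS_eval_zero hb h2, zero_pow ha.ne', zero_pow hb.ne']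
      ring
    · have hxb : x ^ b ≠ 1 := by
        intro hxb
        apply hx1
        have : x ^ (a.gcd b) = 1 := pow_gcd_eq_one.2 ⟨hxa, hxb⟩
        rwa [Nat.Coprime.gcd_eq_one hab, pow_one] at this
      have e1 := PS_eval_root (b := b) ha hx1 hxa
      have e2 := vv_mul hxb
      simp only [eval_sub, eval_add, eval_mul, eval_C, eval_pow, eval_X, eval_one,
        eval_finsetSum, hgeom a x hx1 hxa, hxa, e1]
      linear_combination (-(b : L) * a) * e2
    · have hxa : x ^ a ≠ 1 := by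
        intro hxa
        apply hx1
        have : x ^ (a.gcd b) = 1 := pow_gcd_eq_one.2 ⟨hxa, hxb⟩
        rwa [Nat.Coprime.gcd_eq_one hab, pow_one] at this
      have e1 := PS_eval_root (b := a) hb hx1 hxb
      have e2 := vv_mul hxa
      simp only [eval_sub, eval_add, eval_mul, eval_C, eval_pow, eval_X, eval_one,
        eval_finsetSum, hgeom b x hx1 hxb, hxb, e1]
      linear_combination (-(b : L) * a) * e2
  · refine lt_of_le_of_lt ?_ (lt_of_lt_of_le (Nat.sub_lt (by omega : 0 < a + b) Nat.one_pos) hcard)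
    refine (natDegree_sub_le _ _).trans (max_le ?_ ((natDegree_add_le _ _).trans (max_le
      ((natDegree_add_le _ _).trans (max_le ?_ ?_)) ?_)))
    · refine (natDegree_C_mul_le _ _).trans ((natDegree_add_le _ _).trans (max_le ?_ ?_))
      · refine (natDegree_X_pow_le _).trans (by omega)
      · refine (natDegree_X_pow_le _).trans (by omega)
    · refine natDegree_mul_le.trans ?_
      have e1 := natDegree_PS (L := L) a b
      have e2 := (natDegree_C_mul_le (b : L) ((X : L[X]) ^ b - 1)).trans (natDegree_pow_sub b)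
      omega
    · refine natDegree_mul_le.trans ?_
      have e1 := natDegree_PS (L := L) b a
      have e2 := (natDegree_C_mul_le (a : L) ((X : L[X]) ^ a - 1)).trans (natDegree_pow_sub a)
      omega
    · refine natDegree_mul_le.trans ?_
      have e1 := natDegree_geom (L := L) a
      have e2 := natDegree_geom (L := L) b
      have e3 : ((C 2 * X : L[X]) * (∑ i ∈ range a, X ^ i)).natDegree ≤ 1 + (a - 1) := by
        refine natDegree_mul_le.trans (add_le_add ?_ e1)
        exact (natDegree_C_mul_le _ _).trans natDegree_X_le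
      omega

end Pool.Agent.U784.RG
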