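import Mathlib
import Pool.Agent.TH10.RP.Dim
import Pool.Agent.U784.RG.PF

/-!
# A reciprocity law

If `B_{2i} B_{2N-2i}` is divisible by `p` for all `i` then certain Dedekind sums modulo `p`, formed
with the coefficient `2N-2` of `ζ / (e^x - ζ)`, satisfy a reciprocity law without a right hand side.
-/

set_option autoImplicit false

namespace Pool.Agent.U784.RG

open PowerSeries Finset Pool.Agent.H582R5.RP Pool.Agent.H332R2 Pool.Agent.TH350.SumReg
  Pool.Agent.TH10.RP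

variable (p : ℕ) [Fact p.Prime] (L : Type) [Field L] [Algebra (ZMod p) L]

/-- the truncated exponential series -/
noncomputable def EL : PowerSeries L := PowerSeries.map (algebraMap (ZMod p) L) (ee 1)

/-- `(a x / 2) coth (a x / 2)` -/
noncomputable def ZL (a : ℕ) : PowerSeries L :=
  PowerSeries.map (algebraMap (ZMod p) L) (YS p (a : ZMod p))

/-- `ζ / (e^x - ζ)` -/
noncomputable def kz (ζ : L) : PowerSeries L := C ζ * (EL p L - C ζ)⁻¹

/-- the coefficient -/
noncomputable def gz (n : ℕ) (ζ : L) : L := coeff n (kz p L ζ)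

lemma constantCoeff_EL : constantCoeff (EL p L) = 1 := by
  rw [← coeff_zero_eq_constantCoeff_apply, EL, coeff_map, ee, coeff_mk]
  simp

lemma coeff_one_EL : coeff 1 (EL p L) = 1 := by
  rw [EL, coeff_map, ee, coeff_mk]
  simp

lemma kz_mul {ζ : L} (h : ζ ≠ 1) : (EL p L - C ζ) * kz p L ζ = C ζ := by
  have h1 : constantCoeff (EL p L - C ζ) ≠ 0 := by
    rw [map_sub, constantCoeff_EL, constantCoeff_C, sub_ne_zero]
    exact h.symm
  have h2 := PowerSeries.mul_inv_cancel (EL p L - C ζ) h1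
  unfold kz
  linear_combination (C ζ) * h2

lemma ZL_rel (h2 : p ≠ 2) (a : ℕ) : ∃ s : PowerSeries L,
    (EL p L ^ a - 1) * ZL p L a = C ((a : L) / 2) * X * (EL p L ^ a + 1) + X ^ p * s := by
  have h := YS_rel (p := p) p le_rfl h2 (a : ZMod p)
  rw [qm_ee_nat p le_rfl] at h
  have h3 : qm (ZMod p) p ((ee 1 ^ a - 1) * YS p (a : ZMod p)) =
      qm (ZMod p) p (C ((a : ZMod p) / 2) * X * (ee 1 ^ a + 1)) := by
    simp only [map_mul, map_add, map_sub, map_pow, map_one] at h ⊢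
    exact h
  rw [Ideal.Quotient.eq, Ideal.mem_span_singleton] at h3
  obtain ⟨s, hs⟩ := h3
  refine ⟨PowerSeries.map (algebraMap (ZMod p) L) s, ?_⟩
  have h4 := congrArg (PowerSeries.map (algebraMap (ZMod p) L)) hs
  simp only [map_sub, map_mul, map_add, map_pow, map_one, PowerSeries.map_X, PowerSeries.map_C,
    map_div₀, map_natCast, map_ofNat] at h4
  unfold EL ZL
  linear_combination h4

lemma ZL_prod (h3 : 3 ≤ p) (N : ℕ) (h : ∀ i, i ≤ N → ww p N i = 0) (a b : ℕ) :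
    coeff (2 * N) (ZL p L a * ZL p L b) = 0 := by
  have h1 := prod_coeff_zero (p := p) h3 (a : ZMod p) (b : ZMod p) (2 * N) (by
    intro M hM i hi
    have : M = N := by omega
    subst this
    exact h i hi)
  unfold ZL
  rw [← map_mul, coeff_map, h1, map_zero]

/-- the Dedekind sum -/
noncomputable def DS (n : ℕ) (b a : ℕ) : L := ∑ ζ ∈ mu L a, vv (ζ ^ b) * gz p L n ζ

lemma aeval_PS (a b : ℕ) (ha : 0 < a) : Polynomial.aeval (EL p L) (PS L a b) =
    (EL p L ^ a - 1) * ∑ ζ ∈ mu L a, C (vv (ζ ^ b)) * kz p L ζ := by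
  unfold PS
  rw [map_sum, mul_sum]
  refine sum_congr rfl fun ζ hζ => ?_
  rw [mem_mu ha] at hζ
  have h1 := congrArg (Polynomial.aeval (EL p L)) (QQ_mul hζ.2)
  rw [map_mul, map_sub, Polynomial.aeval_X, Polynomial.aeval_C, map_sub, map_pow, Polynomial.aeval_X,
    map_one] at h1
  have h2 := kz_mul p L hζ.1
  have h3 : algebraMap L (PowerSeries L) = C := rfl
  rw [map_mul, Polynomial.aeval_C, h3, map_mul]
  rw [h3] at h1
  have h4 : EL p L - C ζ ≠ 0 := by
    intro h0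
    have := congrArg constantCoeff h0
    rw [map_sub, constantCoeff_EL, constantCoeff_C, map_zero, sub_eq_zero] at this
    exact hζ.1 this.symm
  apply mul_left_cancel₀ h4
  linear_combination (C (vv (ζ ^ b)) * C ζ) * h1 - (C (vv (ζ ^ b)) * (EL p L ^ a - 1)) * h2

theorem recip (N : ℕ) (hN2 : 2 ≤ N) (hNp : 2 * N + 3 ≤ p) (h : ∀ i, i ≤ N → ww p N i = 0)
    (a b : ℕ) (ha : 0 < a) (hb : 0 < b) (hab : a.Coprime b) (hpa : ¬ p ∣ a) (hpb : ¬ p ∣ b)
    (hca : (Polynomial.nthRootsFinset a (1 : L)).card = a)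
    (hcb : (Polynomial.nthRootsFinset b (1 : L)).card = b) :
    (b : L) * DS p L (2 * N - 2) b a + (a : L) * DS p L (2 * N - 2) a b = 0 := by
  have hinj : Function.Injective (algebraMap (ZMod p) L) := (algebraMap (ZMod p) L).injective
  have hcast : ∀ n : ℕ, ¬ p ∣ n → (n : L) ≠ 0 := by
    intro n hn h0
    apply hn
    rw [← ZMod.natCast_eq_zero_iff]
    apply hinj
    rw [map_natCast, map_zero]
    exact h0
  have ha0 := hcast a hpa
  have hb0 := hcast b hpb
  have h20 : (2 : L) ≠ 0 := by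
    have := hcast 2 (by intro h0; have := Nat.le_of_dvd (by norm_num) h0; omega)
    exact_mod_cast this
  have hpf := congrArg (Polynomial.aeval (EL p L)) (pf a b ha hb hab h20 hca hcb)
  simp only [map_mul, map_add, map_sub, map_pow, map_one, map_sum, Polynomial.aeval_X,
    Polynomial.aeval_C, aeval_PS p L a b ha, aeval_PS p L b a hb] at hpf
  have hC : algebraMap L (PowerSeries L) = C := rfl
  rw [hC] at hpf
  set E := EL p L with hE
  set Sa : PowerSeries L := ∑ ζ ∈ mu L a, C (vv (ζ ^ b)) * kz p L ζ with hSa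
  set Sb : PowerSeries L := ∑ ζ ∈ mu L b, C (vv (ζ ^ a)) * kz p L ζ with hSb
  set Ga : PowerSeries L := ∑ i ∈ range a, E ^ i with hGa
  set Gb : PowerSeries L := ∑ i ∈ range b, E ^ i with hGb
  have hA : E ^ a - 1 = Ga * (E - 1) := (geom_sum_mul E a).symm
  have hB : E ^ b - 1 = Gb * (E - 1) := (geom_sum_mul E b).symm
  obtain ⟨sa, hsa⟩ := ZL_rel p L (by omega) a
  obtain ⟨sb, hsb⟩ := ZL_rel p L (by omega) b
  obtain ⟨s1, hs1⟩ := ZL_rel p L (by omega) 1
  have hc2 : (C (2 : L) : PowerSeries L) * C ((2 : L)⁻¹) = 1 := by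
    rw [← map_mul, mul_inv_cancel₀ h20, map_one]
  have e1 : (C ((a : L) / 2) : PowerSeries L) = C (a : L) * C ((2 : L)⁻¹) := by
    rw [← map_mul, div_eq_mul_inv]
  have e2 : (C ((b : L) / 2) : PowerSeries L) = C (b : L) * C ((2 : L)⁻¹) := by
    rw [← map_mul, div_eq_mul_inv]
  have e3 : (C (((1 : ℕ) : L) / 2) : PowerSeries L) = C ((2 : L)⁻¹) := by
    rw [Nat.cast_one, one_div]
  rw [e1, ← hE] at hsa
  rw [e2, ← hE] at hsb
  rw [e3, ← hE, pow_one] at hs1
  set Za := ZL p L a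
  set Zb := ZL p L b
  set Z1 := ZL p L 1
  set ca : PowerSeries L := C (a : L) with hca'
  set cb : PowerSeries L := C (b : L) with hcb'
  set c2 : PowerSeries L := C (2 : L) with hc2'
  set hf : PowerSeries L := C ((2 : L)⁻¹) with hhf
  have e22 : c2 = 2 := by rw [hc2']; exact map_ofNat C 2
  set Om : PowerSeries L := Za * Zb - ca * cb * hf ^ 2 * X ^ 2 - cb * hf * X ^ 2 * Sa
    - ca * hf * X ^ 2 * Sb - Z1 * Z1 + hf ^ 2 * X ^ 2 with hOm
  have hdvd : X ^ p ∣ (E ^ a - 1) * (E ^ b - 1) * Om := by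
    have hh2 : (2 : PowerSeries L) * hf = 1 := by rw [← e22]; exact hc2
    rw [e22] at hpf
    have k1 : (E ^ a - 1) * (E ^ b - 1) * (Za * Zb) =
        (ca * hf * X * (E ^ a + 1) + X ^ p * sa) * (cb * hf * X * (E ^ b + 1) + X ^ p * sb) := by
      rw [← hsa, ← hsb]; ring
    have k2 : (E ^ a - 1) * (E ^ b - 1) * (Z1 * Z1) =
        Ga * Gb * ((hf * X * (E + 1) + X ^ p * s1) * (hf * X * (E + 1) + X ^ p * s1)) := by
      rw [hA, hB, ← hs1]; ring
    have k3 : (E ^ a - 1) * (E ^ b - 1) = Ga * Gb * ((E - 1) * (E - 1)) := by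
      rw [hA, hB]; ring
    have k4 : (E ^ a + 1) * (E ^ b + 1) = (E ^ a - 1) * (E ^ b - 1) + 2 * (E ^ a + E ^ b) := by ring
    refine ⟨sa * (cb * hf * X * (E ^ b + 1)) + sb * (ca * hf * X * (E ^ a + 1)) + X ^ p * sa * sb
      - Ga * Gb * (2 * (hf * X * (E + 1)) * s1 + X ^ p * s1 * s1), ?_⟩
    have k5 : (E ^ a - 1) * (E ^ b - 1) * Om = (E ^ a - 1) * (E ^ b - 1) * (Za * Zb)
      - (E ^ a - 1) * (E ^ b - 1) * (Z1 * Z1)
      - (E ^ a - 1) * (E ^ b - 1) * (ca * cb * hf ^ 2 * X ^ 2)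
      - (E ^ a - 1) * (E ^ b - 1) * (cb * hf * X ^ 2 * Sa + ca * hf * X ^ 2 * Sb)
      + (E ^ a - 1) * (E ^ b - 1) * (hf ^ 2 * X ^ 2) := by
      rw [hOm]; ring
    rw [k5, k1, k2]
    have k6 : (E ^ a - 1) * (E ^ b - 1) * (hf ^ 2 * X ^ 2) =
      Ga * Gb * ((E - 1) * (E - 1)) * (hf ^ 2 * X ^ 2) := by rw [k3]
    rw [k6]
    have k7 : ca * cb * (E ^ a + E ^ b) * hf ^ 2 * 2 = hf * (ca * cb * (E ^ a + E ^ b)) := by
      linear_combination (ca * cb * (E ^ a + E ^ b) * hf) * hh2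
    linear_combination (hf * X ^ 2) * hpf + X ^ 2 * k7 +
      (X ^ 2 * hf * Ga * Gb * E * (2 : PowerSeries L)) * (-hh2)
  have hcE : constantCoeff E = 1 := constantCoeff_EL p L
  have hED : ∃ u : PowerSeries L, E - 1 = X * u ∧ constantCoeff u = 1 := by
    have : X ∣ E - 1 := by rw [PowerSeries.X_dvd_iff, map_sub, hcE, map_one, sub_self]
    obtain ⟨u, hu⟩ := this
    refine ⟨u, hu, ?_⟩
    have h1 := congrArg (coeff 1) hu
    rw [map_sub, hE, coeff_one_EL, coeff_one, if_neg (by norm_num), coeff_succ_X_mul, sub_zero] at h1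
    rw [← coeff_zero_eq_constantCoeff_apply, ← h1]
  obtain ⟨u, hu, hu1⟩ := hED
  have hcGa : constantCoeff Ga = a := by
    rw [hGa, map_sum]
    simp [hcE]
  have hcGb : constantCoeff Gb = b := by
    rw [hGb, map_sum]
    simp [hcE]
  have hw : IsUnit (Ga * Gb * (u * u)) := by
    rw [PowerSeries.isUnit_iff_constantCoeff, isUnit_iff_ne_zero, map_mul, map_mul, map_mul, hcGa, hcGb,
      hu1]
    simp [ha0, hb0]
  have hAB : (E ^ a - 1) * (E ^ b - 1) * Om = X ^ 2 * ((Ga * Gb * (u * u)) * Om) := by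
    rw [hA, hB, hu]; ring
  rw [hAB] at hdvd
  have hd2 : X ^ (p - 2) ∣ (Ga * Gb * (u * u)) * Om := by
    have e : (X : PowerSeries L) ^ p = X ^ 2 * X ^ (p - 2) := by rw [← pow_add]; congr 1; omega
    rw [e] at hdvd
    exact (mul_dvd_mul_iff_left (pow_ne_zero 2 PowerSeries.X_ne_zero)).1 hdvd
  have hd3 := (hw.dvd_mul_left).1 hd2
  rw [PowerSeries.X_pow_dvd_iff] at hd3
  have h4 := hd3 (2 * N) (by omega)
  have hN' : 2 * N = (2 * N - 2) + 2 := by omega
  have g1 : coeff (2 * N) (Za * Zb) = 0 := ZL_prod p L (by omega) N h a b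
  have g2 : coeff (2 * N) (Z1 * Z1) = 0 := ZL_prod p L (by omega) N h 1 1
  have g3 : coeff (2 * N) (ca * cb * hf ^ 2 * X ^ 2) = 0 := by
    have : ca * cb * hf ^ 2 * X ^ 2 = C ((a : L) * b * (2⁻¹) ^ 2) * X ^ 2 := by
      rw [hca', hcb', hhf, map_mul, map_mul, map_pow]
    rw [this, coeff_C_mul, coeff_X_pow, if_neg (by omega), mul_zero]
  have g4 : coeff (2 * N) (hf ^ 2 * X ^ 2) = 0 := by
    have : hf ^ 2 * X ^ 2 = C ((2⁻¹ : L) ^ 2) * X ^ 2 := by
      rw [hhf, map_pow]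
    rw [this, coeff_C_mul, coeff_X_pow, if_neg (by omega), mul_zero]
  have g5 : coeff (2 * N) (cb * hf * X ^ 2 * Sa) = (b : L) * 2⁻¹ * DS p L (2 * N - 2) b a := by
    have : cb * hf * X ^ 2 * Sa = C ((b : L) * 2⁻¹) * (X ^ 2 * Sa) := by
      rw [hcb', hhf, map_mul]; ring
    rw [this, coeff_C_mul, hN', coeff_X_pow_mul, hSa, map_sum]
    congr 1
    unfold DS
    refine sum_congr rfl fun ζ _ => ?_
    rw [coeff_C_mul]
    rfl
  have g6 : coeff (2 * N) (ca * hf * X ^ 2 * Sb) = (a : L) * 2⁻¹ * DS p L (2 * N - 2) a b := by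
    have : ca * hf * X ^ 2 * Sb = C ((a : L) * 2⁻¹) * (X ^ 2 * Sb) := by
      rw [hca', hhf, map_mul]; ring
    rw [this, coeff_C_mul, hN', coeff_X_pow_mul, hSb, map_sum]
    congr 1
    unfold DS
    refine sum_congr rfl fun ζ _ => ?_
    rw [coeff_C_mul]
    rfl
  rw [hOm, map_add, map_sub, map_sub, map_sub, map_sub, g1, g2, g3, g4, g5, g6] at h4
  have h5 : (2⁻¹ : L) * ((b : L) * DS p L (2 * N - 2) b a + (a : L) * DS p L (2 * N - 2) a b) = 0 := by
    linear_combination -h4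
  exact (mul_eq_zero.1 h5).resolve_left (inv_ne_zero h20)

end Pool.Agent.U784.RG
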