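import Mathlib
import Pool.Agent.U784.RG.Ser

/-!
# The Dedekind sums vanish
-/

set_option autoImplicit false

namespace Pool.Agent.U784.RG

open PowerSeries Finset Pool.Agent.H582R5.RP Pool.Agent.H332R2 Pool.Agent.TH350.SumReg
  Pool.Agent.TH10.RP

variable (p : ℕ) [Fact p.Prime] (L : Type) [Field L] [Algebra (ZMod p) L]

lemma DS_congr (n : ℕ) {a b c : ℕ} (ha : 0 < a) (h : b ≡ c [MOD a]) :
    DS p L n b a = DS p L n c a := by
  unfold DS
  refine sum_congr rfl fun ζ hζ => ?_
  rw [mem_mu ha] at hζ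
  have h1 : ζ ^ b = ζ ^ c := by
    rw [pow_eq_pow_mod b hζ.2, pow_eq_pow_mod c hζ.2, h]
  rw [h1]

lemma DS_neg (n : ℕ) {a b c : ℕ} (ha : 0 < a) (h : a ∣ b + c) :
    DS p L n b a = - DS p L n c a := by
  unfold DS
  rw [← sum_neg_distrib]
  refine sum_congr rfl fun ζ hζ => ?_
  rw [mem_mu ha] at hζ
  obtain ⟨k, hk⟩ := h
  have hz : ζ ≠ 0 := by
    rintro rfl
    rw [zero_pow ha.ne'] at hζ
    exact zero_ne_one hζ.2
  have h1 : ζ ^ b * ζ ^ c = 1 := by
    rw [← pow_add, hk, pow_mul, hζ.2, one_pow]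
  have h2 : ζ ^ b = (ζ ^ c)⁻¹ := eq_inv_of_mul_eq_one_left h1
  rw [h2, vv_inv (pow_ne_zero _ hz)]
  ring

theorem DS_zero (N : ℕ) (hN2 : 2 ≤ N) (hNp : 2 * N + 3 ≤ p) (h : ∀ i, i ≤ N → ww p N i = 0)
    (hroots : ∀ n : ℕ, ¬ p ∣ n → (Polynomial.nthRootsFinset n (1 : L)).card = n) :
    ∀ a : ℕ, 0 < a → ¬ p ∣ a → ∀ b : ℕ, a.Coprime b → DS p L (2 * N - 2) b a = 0 := by
  have hinj : Function.Injective (algebraMap (ZMod p) L) := (algebraMap (ZMod p) L).injective
  have hcast : ∀ n : ℕ, ¬ p ∣ n → (n : L) ≠ 0 := by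
    intro n hn h0
    apply hn
    rw [← ZMod.natCast_eq_zero_iff]
    apply hinj
    rw [map_natCast, map_zero]
    exact h0
  intro a
  induction a using Nat.strong_induction_on with
  | _ a ih =>
    intro ha hpa b hab
    rcases Nat.lt_or_ge a 2 with h2 | h2
    · have : a = 1 := by omega
      subst this
      unfold DS
      have : mu L 1 = ∅ := by
        rw [Finset.eq_empty_iff_forall_notMem]
        intro z hz
        rw [mem_mu one_pos] at hz
        exact hz.1 (by simpa using hz.2)
      rw [this, sum_empty]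
    · -- the case of a representative
      have key : ∀ r : ℕ, 0 < r → r < a → ¬ p ∣ r → a.Coprime r → DS p L (2 * N - 2) r a = 0 := by
        intro r hr0 hra hpr hcop
        have h1 := recip p L N hN2 hNp h a r ha hr0 hcop hpa hpr (hroots a hpa) (hroots r hpr)
        rw [ih r hra hr0 hpr a hcop.symm, mul_zero, add_zero] at h1
        exact (mul_eq_zero.1 h1).resolve_left (hcast r hpr)
      have hr : b % a < a := Nat.mod_lt _ ha
      have hcop : a.Coprime (b % a) := by
        rw [Nat.coprime_comm]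
        have : (b % a).gcd a = b.gcd a := by
          rw [← Nat.gcd_rec, Nat.gcd_comm]
        unfold Nat.Coprime
        rw [this]
        exact hab.symm
      have hr0 : 0 < b % a := by
        rcases Nat.eq_zero_or_pos (b % a) with h0 | h0
        · rw [h0, Nat.coprime_zero_right] at hcop
          omega
        · exact h0
      rw [DS_congr p L _ ha (c := b % a) (by exact (Nat.mod_modEq b a).symm)]
      by_cases hpr : p ∣ b % a
      · rw [DS_neg p L _ ha (c := a - b % a) ⟨1, by omega⟩]
        rw [key (a - b % a) (by omega) (by omega) ?_ ?_, neg_zero]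
        · intro hp'
          apply hpa
          have := dvd_add hp' hpr
          rwa [Nat.sub_add_cancel hr.le] at this
        · exact (Nat.coprime_self_sub_right hr.le).2 hcop
      · exact key _ hr0 hr hpr hcop

end Pool.Agent.U784.RG
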