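import Mathlib
import Pool.Agent.U784.RG.Van
import Pool.Agent.U784.RG.NV

/-!
# Every integer up to `(p-3)/2` is a sum of two regular indices
-/

set_option autoImplicit false

namespace Pool.Agent.U784.RG

open Finset Pool.Agent.H582R5.RP Pool.Agent.H332R2 Pool.Agent.TH350.SumReg Pool.Agent.TH10.RP

section G

variable (p : ℕ) [Fact p.Prime]

/-- the polynomial `G` with `[x^n] ζ / (e^x - ζ) = G(1 / (1 - ζ))` -/
noncomputable def GP (n : ℕ) : Polynomial (ZMod p) :=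
  (Polynomial.X - 1) * ∑ k ∈ range (n + 1),
    Polynomial.C ((-1) ^ k * PowerSeries.coeff n ((ee (1 : ZMod p) - 1) ^ k)) * Polynomial.X ^ k

lemma ee_sub_one : ∃ u : PowerSeries (ZMod p), ee (1 : ZMod p) - 1 = PowerSeries.X * u ∧
    PowerSeries.constantCoeff u = 1 := by
  have h0 : PowerSeries.constantCoeff (ee (1 : ZMod p)) = 1 := by
    rw [← PowerSeries.coeff_zero_eq_constantCoeff_apply, ee, PowerSeries.coeff_mk]
    simp
  have : PowerSeries.X ∣ ee (1 : ZMod p) - 1 := by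
    rw [PowerSeries.X_dvd_iff, map_sub, h0, map_one, sub_self]
  obtain ⟨u, hu⟩ := this
  refine ⟨u, hu, ?_⟩
  have h1 := congrArg (PowerSeries.coeff 1) hu
  rw [map_sub, ee, PowerSeries.coeff_mk, PowerSeries.coeff_one, if_neg (by norm_num),
    PowerSeries.coeff_succ_X_mul, sub_zero] at h1
  rw [← PowerSeries.coeff_zero_eq_constantCoeff_apply, ← h1]
  simp

lemma coeff_top (n : ℕ) : PowerSeries.coeff n ((ee (1 : ZMod p) - 1) ^ n) = 1 := by
  obtain ⟨u, hu, hu1⟩ := ee_sub_one p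
  rw [hu, mul_pow]
  have h := PowerSeries.coeff_X_pow_mul (u ^ n) n 0
  rw [zero_add] at h
  rw [h, PowerSeries.coeff_zero_eq_constantCoeff_apply, map_pow, hu1, one_pow]

lemma natDegree_inner (n : ℕ) : (∑ k ∈ range (n + 1),
    Polynomial.C ((-1) ^ k * PowerSeries.coeff n ((ee (1 : ZMod p) - 1) ^ k)) *
      Polynomial.X ^ k).natDegree ≤ n := by
  refine Polynomial.natDegree_sum_le_of_forall_le _ _ (fun j hj => ?_)
  rw [mem_range] at hj
  refine (Polynomial.natDegree_C_mul_X_pow_le _ _).trans (by omega)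

lemma coeff_GP_top {n : ℕ} (hn : Even n) : (GP p n).coeff (n + 1) = 1 := by
  unfold GP
  rw [sub_mul, one_mul, Polynomial.coeff_sub, Polynomial.coeff_X_mul]
  have h1 := Polynomial.coeff_eq_zero_of_natDegree_lt
    (lt_of_le_of_lt (natDegree_inner p n) (Nat.lt_succ_self n))
  rw [h1, sub_zero, Polynomial.finsetSum_coeff, Finset.sum_eq_single n]
  · rw [Polynomial.coeff_C_mul, Polynomial.coeff_X_pow, if_pos rfl, mul_one, coeff_top, mul_one,
      hn.neg_one_pow]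
  · intro k _ hk
    rw [Polynomial.coeff_C_mul, Polynomial.coeff_X_pow, if_neg (Ne.symm hk), mul_zero]
  · intro h
    exact absurd (mem_range.2 (Nat.lt_succ_self n)) h

lemma natDegree_GP {n : ℕ} (hn : Even n) : (GP p n).natDegree = n + 1 := by
  apply le_antisymm
  · unfold GP
    refine Polynomial.natDegree_mul_le.trans ?_
    have h1 := natDegree_inner p n
    have h2 : (Polynomial.X - 1 : Polynomial (ZMod p)).natDegree ≤ 1 := by
      have : (Polynomial.X - 1 : Polynomial (ZMod p)) = Polynomial.X - Polynomial.C 1 := by simp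
      rw [this, Polynomial.natDegree_X_sub_C]
    omega
  · apply Polynomial.le_natDegree_of_ne_zero
    rw [coeff_GP_top p hn]
    exact one_ne_zero

/-- the odd part -/
noncomputable def GO (n : ℕ) : Polynomial (ZMod p) :=
  GP p n - (GP p n).comp (1 - Polynomial.X)

lemma natDegree_GO (h2 : p ≠ 2) {n : ℕ} (hn : Even n) : 0 < (GO p n).natDegree := by
  have h20 : (2 : ZMod p) ≠ 0 := by
    intro h0
    have h3 : ((2 : ℕ) : ZMod p) = 0 := by exact_mod_cast h0
    rw [ZMod.natCast_eq_zero_iff] at h3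
    exact h2 ((Nat.prime_dvd_prime_iff_eq (Fact.out : p.Prime) Nat.prime_two).1 h3)
  have e1 : (1 - Polynomial.X : Polynomial (ZMod p)) = - (Polynomial.X - Polynomial.C 1) := by simp
  have hd1 : (1 - Polynomial.X : Polynomial (ZMod p)).natDegree = 1 := by
    rw [e1, Polynomial.natDegree_neg, Polynomial.natDegree_X_sub_C]
  have hl1 : (1 - Polynomial.X : Polynomial (ZMod p)).leadingCoeff = -1 := by
    rw [e1, Polynomial.leadingCoeff_neg, Polynomial.leadingCoeff_X_sub_C]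
  have hd2 : ((GP p n).comp (1 - Polynomial.X)).natDegree = n + 1 := by
    rw [Polynomial.natDegree_comp, hd1, natDegree_GP p hn, mul_one]
  have hl0 : (GP p n).leadingCoeff = 1 := by
    rw [Polynomial.leadingCoeff, natDegree_GP p hn, coeff_GP_top p hn]
  have hl2 : ((GP p n).comp (1 - Polynomial.X)).leadingCoeff = -1 := by
    rw [Polynomial.leadingCoeff_comp (by rw [hd1]; norm_num), hl0, hl1, natDegree_GP p hn,
      pow_succ, hn.neg_one_pow]
    ring
  have h3 : (GO p n).coeff (n + 1) ≠ 0 := by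
    unfold GO
    rw [Polynomial.coeff_sub, coeff_GP_top p hn]
    rw [Polynomial.leadingCoeff, hd2] at hl2
    rw [hl2]
    intro h
    apply h20
    linear_combination h
  have := Polynomial.le_natDegree_of_ne_zero h3
  omega

end G

section H

variable (p : ℕ) [Fact p.Prime] (L : Type) [Field L] [Algebra (ZMod p) L]

lemma gz_eq (n : ℕ) {ζ : L} (hζ : ζ ≠ 1) :
    gz p L n ζ = Polynomial.aeval ((1 - ζ)⁻¹) (GP p n) := by
  have h1ζ : 1 - ζ ≠ 0 := sub_ne_zero.2 hζ.symm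
  set w := (1 - ζ)⁻¹ with hw
  have hw1 : (1 - ζ) * w = 1 := mul_inv_cancel₀ h1ζ
  set u : PowerSeries L := EL p L - 1 with hu
  have humap : u = PowerSeries.map (algebraMap (ZMod p) L) (ee 1 - 1) := by
    rw [hu, EL, map_sub, map_one]
  have hX : PowerSeries.X ∣ u := by
    rw [PowerSeries.X_dvd_iff, hu, map_sub, constantCoeff_EL, map_one, sub_self]
  have htel : ∀ K : ℕ, (EL p L - PowerSeries.C ζ) *
      ∑ k ∈ range K, PowerSeries.C ((-1) ^ k * w ^ (k + 1)) * u ^ k =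
        1 - PowerSeries.C ((-1) ^ K * w ^ K) * u ^ K := by
    intro K
    induction K with
    | zero => simp
    | succ K ih =>
      rw [sum_range_succ, mul_add, ih]
      have e1 : EL p L - PowerSeries.C ζ = u + PowerSeries.C (1 - ζ) := by
        rw [hu, map_sub, map_one]; ring
      rw [e1]
      have e2 : (PowerSeries.C (1 - ζ) : PowerSeries L) * PowerSeries.C ((-1) ^ K * w ^ (K + 1)) =
          PowerSeries.C ((-1) ^ K * w ^ K) := by
        rw [← map_mul]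
        congr 1
        rw [pow_succ]
        linear_combination ((-1) ^ K * w ^ K) * hw1
      have e3 : (PowerSeries.C ((-1) ^ (K + 1) * w ^ (K + 1)) : PowerSeries L) =
          - PowerSeries.C ((-1) ^ K * w ^ (K + 1)) := by
        rw [← map_neg]
        congr 1
        rw [pow_succ (-1 : L)]
        ring
      rw [e3, pow_succ u]
      linear_combination (u ^ K) * e2
  have hk := kz_mul p L hζ
  have hunit : IsUnit (EL p L - PowerSeries.C ζ) := by
    rw [PowerSeries.isUnit_iff_constantCoeff, isUnit_iff_ne_zero, map_sub, constantCoeff_EL,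
      PowerSeries.constantCoeff_C]
    exact h1ζ
  set T : PowerSeries L := ∑ k ∈ range (n + 1), PowerSeries.C ((-1) ^ k * w ^ (k + 1)) * u ^ k with hT
  have hd : PowerSeries.X ^ (n + 1) ∣ kz p L ζ - PowerSeries.C ζ * T := by
    rw [← hunit.dvd_mul_left]
    have e : (EL p L - PowerSeries.C ζ) * (kz p L ζ - PowerSeries.C ζ * T) =
        (PowerSeries.C ζ * PowerSeries.C ((-1) ^ (n + 1) * w ^ (n + 1))) * u ^ (n + 1) := by
      linear_combination hk - (PowerSeries.C ζ) * (htel (n + 1))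
    rw [e]
    exact Dvd.dvd.mul_left (pow_dvd_pow_of_dvd hX _) _
  rw [PowerSeries.X_pow_dvd_iff] at hd
  have h1 := hd n (Nat.lt_succ_self n)
  rw [map_sub, sub_eq_zero] at h1
  unfold gz
  rw [h1, PowerSeries.coeff_C_mul, hT, map_sum, mul_sum, GP, map_mul, map_sub, map_one,
    Polynomial.aeval_X, map_sum, mul_sum]
  refine sum_congr rfl fun k _ => ?_
  have e5 : Polynomial.aeval w (Polynomial.C ((-1) ^ k *
      PowerSeries.coeff n ((ee (1 : ZMod p) - 1) ^ k)) * Polynomial.X ^ k) =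
      (-1) ^ k * (algebraMap (ZMod p) L) (PowerSeries.coeff n ((ee 1 - 1) ^ k)) * w ^ k := by
    rw [map_mul, Polynomial.aeval_C, Polynomial.aeval_X_pow, (algebraMap (ZMod p) L).map_mul,
      (algebraMap (ZMod p) L).map_pow, (algebraMap (ZMod p) L).map_neg,
      (algebraMap (ZMod p) L).map_one]
  rw [PowerSeries.coeff_C_mul, humap, ← (PowerSeries.map (algebraMap (ZMod p) L)).map_pow,
    PowerSeries.coeff_map, e5]
  have e4 : ζ * w = w - 1 := by linear_combination (-1 : L) * hw1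
  rw [pow_succ w k]
  linear_combination ((-1) ^ k * w ^ k *
    (algebraMap (ZMod p) L) (PowerSeries.coeff n ((ee 1 - 1) ^ k))) * e4

/-- `v` as a polynomial -/
noncomputable def VP : Polynomial (ZMod p) := 1 - Polynomial.C 2 * Polynomial.X

lemma natDegree_VP (h2 : p ≠ 2) : 0 < (VP p).natDegree := by
  have h20 : (2 : ZMod p) ≠ 0 := by
    intro h0
    have h3 : ((2 : ℕ) : ZMod p) = 0 := by exact_mod_cast h0
    rw [ZMod.natCast_eq_zero_iff] at h3
    exact h2 ((Nat.prime_dvd_prime_iff_eq (Fact.out : p.Prime) Nat.prime_two).1 h3)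
  have h3 : (VP p).coeff 1 ≠ 0 := by
    unfold VP
    rw [Polynomial.coeff_sub, Polynomial.coeff_C_mul, Polynomial.coeff_X_one, Polynomial.coeff_one,
      if_neg (by norm_num)]
    simpa using h20
  have := Polynomial.le_natDegree_of_ne_zero h3
  omega

lemma vv_eq {ζ : L} (hζ : ζ ≠ 1) : vv ζ = Polynomial.aeval ((1 - ζ)⁻¹) (VP p) := by
  have h1ζ : 1 - ζ ≠ 0 := sub_ne_zero.2 hζ.symm
  have h2ζ : ζ - 1 ≠ 0 := sub_ne_zero.2 hζ
  unfold VP vv
  rw [map_sub, map_one, map_mul, Polynomial.aeval_C, Polynomial.aeval_X, map_ofNat]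
  rw [div_eq_iff h2ζ]
  have h3 : (1 - ζ) * (1 - ζ)⁻¹ = 1 := mul_inv_cancel₀ h1ζ
  linear_combination (-2 : L) * h3

lemma inv_w {ζ : L} (h0 : ζ ≠ 0) (h1 : ζ ≠ 1) : (1 - ζ⁻¹)⁻¹ = 1 - (1 - ζ)⁻¹ := by
  have h1ζ : 1 - ζ ≠ 0 := sub_ne_zero.2 h1.symm
  have h2ζ : 1 - ζ⁻¹ ≠ 0 := by
    rw [sub_ne_zero]
    intro h
    exact h1 (by rw [← inv_inv ζ, ← h, inv_one])
  rw [inv_eq_iff_eq_inv]
  symm
  apply inv_eq_of_mul_eq_one_left
  have h3 : (1 - ζ) * (1 - ζ)⁻¹ = 1 := mul_inv_cancel₀ h1ζ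
  have h4 : ζ * ζ⁻¹ = 1 := mul_inv_cancel₀ h0
  have h5 : 1 - ζ⁻¹ = -(1 - ζ) * ζ⁻¹ := by linear_combination (-1 : L) * h4
  rw [h5]
  linear_combination (ζ⁻¹) * h3 + h4

/-- the convolution identity -/
theorem conv (N : ℕ) (hN2 : 2 ≤ N) (hNp : 2 * N + 3 ≤ p) (h : ∀ i, i ≤ N → ww p N i = 0)
    (hroots : ∀ n : ℕ, ¬ p ∣ n → (Polynomial.nthRootsFinset n (1 : L)).card = n)
    {m : ℕ} {ζ : L} (hζ : IsPrimitiveRoot ζ (3 ^ (m + 1))) (k : ℕ) :
    ∑ j ∈ range (3 ^ m), Polynomial.aeval ((1 - ζ ^ 4 ^ (j + k))⁻¹) (VP p) *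
      Polynomial.aeval ((1 - ζ ^ 4 ^ j)⁻¹) (GO p (2 * N - 2)) = 0 := by
  classical
  have hp7 : 7 ≤ p := by omega
  have hp3 : ∀ t : ℕ, ¬ p ∣ 3 ^ t := by
    intro t ht
    have := (Fact.out : p.Prime).dvd_of_dvd_pow ht
    have := Nat.le_of_dvd (by norm_num) this
    omega
  have hcop : ∀ t : ℕ, (3 ^ t).Coprime (4 ^ k) := fun t => Nat.Coprime.pow _ _ (by norm_num)
  have h1 := DS_zero p L N hN2 hNp h hroots (3 ^ (m + 1)) (by positivity) (hp3 _) (4 ^ k) (hcop _)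
  have h2 := DS_zero p L N hN2 hNp h hroots (3 ^ m) (by positivity) (hp3 _) (4 ^ k) (hcop _)
  have hpos1 : 0 < 3 ^ (m + 1) := by positivity
  have hpos2 : 0 < 3 ^ m := by positivity
  unfold DS at h1 h2
  have hsub : mu L (3 ^ m) ⊆ mu L (3 ^ (m + 1)) := by
    intro z hz
    rw [mem_mu hpos2] at hz
    rw [mem_mu hpos1]
    exact ⟨hz.1, by rw [pow_succ, pow_mul, hz.2, one_pow]⟩
  have h3 := sum_sdiff (f := fun z => vv (z ^ 4 ^ k) * gz p L (2 * N - 2) z) hsub
  rw [h1, h2, add_zero] at h3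
  have hset : mu L (3 ^ (m + 1)) \ mu L (3 ^ m) =
      Polynomial.nthRootsFinset (3 ^ (m + 1)) (1 : L) \ Polynomial.nthRootsFinset (3 ^ m) (1 : L) := by
    ext z
    rw [mem_sdiff, mem_sdiff, mem_mu hpos1, mem_mu hpos2, Polynomial.mem_nthRootsFinset hpos1,
      Polynomial.mem_nthRootsFinset hpos2]
    constructor
    · rintro ⟨⟨a1, a2⟩, a3⟩
      exact ⟨a2, fun a4 => a3 ⟨a1, a4⟩⟩
    · rintro ⟨a1, a2⟩
      refine ⟨⟨?_, a1⟩, fun a3 => a2 a3.2⟩
      rintro rfl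
      exact a2 (one_pow _)
  rw [hset, sum_struct hζ] at h3
  rw [← h3]
  refine sum_congr rfl fun j _ => ?_
  have hζ0 : ζ ≠ 0 := hζ.ne_zero (by positivity)
  have hne1 : ∀ j, ζ ^ 4 ^ j ≠ 1 := by
    intro j h1
    rw [hζ.pow_eq_one_iff_dvd] at h1
    have h2 : 3 ∣ 4 ^ j := (Dvd.intro_left (3 ^ m) (by rw [pow_succ])).trans h1
    have h3 : 4 ^ j % 3 = 1 := by
      rw [Nat.pow_mod]; simp
    omega
  have hz0 : ζ ^ 4 ^ j ≠ 0 := pow_ne_zero _ hζ0
  have hinv1 : (ζ ^ 4 ^ j)⁻¹ ≠ 1 := by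
    intro h
    exact hne1 j (by rw [← inv_inv (ζ ^ 4 ^ j), h, inv_one])
  have e1 : ζ ^ 4 ^ (j + k) = (ζ ^ 4 ^ j) ^ 4 ^ k := by rw [← pow_mul, ← pow_add]
  rw [← vv_eq p L (hne1 (j + k)), inv_pow, vv_inv (pow_ne_zero _ hz0), ← e1,
    gz_eq p L _ (hne1 j), gz_eq p L _ hinv1, inv_w L hz0 (hne1 j), GO, map_sub,
    Polynomial.aeval_comp, map_sub, map_one, Polynomial.aeval_X]
  ring

/-- **Every `N ≤ (p-3)/2` is a sum of two regular indices (zero allowed).** -/
theorem two_sum (p : ℕ) [Fact p.Prime] (N : ℕ) (hNp : 2 * N + 3 ≤ p) :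
    ∃ i, i ≤ N ∧ ww p N i ≠ 0 := by
  classical
  by_contra hcon
  push Not at hcon
  have h3p : 3 ≤ p := by omega
  -- small cases
  have hcc1 : 5 ≤ p → cc p (2 * 1) ≠ 0 := by
    intro h5 h0
    rw [cc_eq_zero_iff (by omega) (by omega)] at h0
    rw [Nat.mul_one, bernoulli_two] at h0
    have e : ((6 : ℚ)⁻¹).num = 1 := by
      rw [Rat.inv_ofNat_num]
    rw [e] at h0
    have := Int.le_of_dvd (by norm_num) h0
    omega
  rcases Nat.lt_or_ge N 2 with hN2 | hN2
  · have h0 := hcon 0 (Nat.zero_le _)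
    unfold ww at h0
    rw [Nat.mul_zero, cc_zero, one_mul, Nat.sub_zero] at h0
    rcases Nat.eq_zero_or_pos N with rfl | hN
    · rw [Nat.mul_zero, cc_zero] at h0
      exact one_ne_zero h0
    · have : N = 1 := by omega
      subst this
      exact hcc1 (by omega) h0
  have hp7 : 7 ≤ p := by omega
  let L := AlgebraicClosure (ZMod p)
  have hcast : ∀ n : ℕ, ¬ p ∣ n → (n : L) ≠ 0 := by
    intro n hn h0
    apply hn
    rw [← ZMod.natCast_eq_zero_iff]
    apply (algebraMap (ZMod p) L).injective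
    rw [map_natCast, map_zero]
    exact h0
  have hprim : ∀ n : ℕ, ¬ p ∣ n → ∃ ζ : L, IsPrimitiveRoot ζ n := by
    intro n hn
    have : NeZero (n : L) := ⟨hcast n hn⟩
    exact HasEnoughRootsOfUnity.exists_primitiveRoot L n
  have hroots : ∀ n : ℕ, ¬ p ∣ n → (Polynomial.nthRootsFinset n (1 : L)).card = n := by
    intro n hn
    obtain ⟨ζ, hζ⟩ := hprim n hn
    exact hζ.card_nthRootsFinset
  have hp3 : ∀ t : ℕ, ¬ p ∣ 3 ^ t := by
    intro t ht
    have := (Fact.out : p.Prime).dvd_of_dvd_pow ht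
    have := Nat.le_of_dvd (by norm_num) this
    omega
  set s := padicValNat 3 (p ^ 2 - 1) with hs
  set D := (GO p (2 * N - 2)).natDegree + (VP p).natDegree with hD
  set m := 2 * s + D * 3 ^ s with hm
  have hbig : D * 3 ^ s < 3 ^ (m - 2 * s) := by
    have : m - 2 * s = D * 3 ^ s := by omega
    rw [this]
    exact Nat.lt_pow_self (by norm_num)
  obtain ⟨ζ, hζ⟩ := hprim (3 ^ (m + 1)) (hp3 _)
  have hξ : IsPrimitiveRoot (ζ ^ 3) (3 ^ m) := hζ.pow (by positivity) (by rw [pow_succ'])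
  set ξ := ζ ^ 3 with hξd
  have hξ0 : ξ ≠ 0 := hξ.ne_zero (by positivity)
  have hEven : Even (2 * N - 2) := ⟨N - 1, by omega⟩
  have n1 : HH p (VP p) (3 ^ m) ζ ξ ≠ 0 := by
    refine HH_ne_zero p (by omega) hs.symm (by omega) hζ hξ _ (natDegree_VP p (by omega)) ?_
    refine lt_of_le_of_lt (Nat.mul_le_mul_right _ ?_) hbig
    omega
  have n2 : HH p (GO p (2 * N - 2)) (3 ^ m) ζ ξ⁻¹ ≠ 0 := by
    refine HH_ne_zero p (by omega) hs.symm (by omega) hζ hξ.inv _ (natDegree_GO p (by omega) hEven) ?_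
    refine lt_of_le_of_lt (Nat.mul_le_mul_right _ ?_) hbig
    omega
  apply mul_ne_zero n1 n2
  have hconv := conv p L N hN2 hNp (fun i hi => hcon i hi) hroots hζ
  have hper : ∀ k, (fun j => ξ ^ j * Polynomial.aeval ((1 - ζ ^ 4 ^ j)⁻¹) (VP p)) (k + 3 ^ m) =
      (fun j => ξ ^ j * Polynomial.aeval ((1 - ζ ^ 4 ^ j)⁻¹) (VP p)) k := by
    intro k
    have e1 : ζ ^ 4 ^ (k + 3 ^ m) = ζ ^ 4 ^ k := by
      symm
      rw [pow_four_eq hζ (Nat.le_add_right _ _)]
      simp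
    have e2 : ξ ^ (k + 3 ^ m) = ξ ^ k := by rw [pow_add, hξ.pow_eq_one, mul_one]
    simp only [e1, e2]
  calc HH p (VP p) (3 ^ m) ζ ξ * HH p (GO p (2 * N - 2)) (3 ^ m) ζ ξ⁻¹
      = ∑ j ∈ range (3 ^ m), (ξ⁻¹) ^ j * Polynomial.aeval ((1 - ζ ^ 4 ^ j)⁻¹) (GO p (2 * N - 2)) *
          ∑ k ∈ range (3 ^ m), ξ ^ (k + j) * Polynomial.aeval ((1 - ζ ^ 4 ^ (k + j))⁻¹) (VP p) := by
        rw [mul_comm]
        conv_lhs => rw [HH, sum_mul]
        refine sum_congr rfl fun j _ => ?_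
        have := sum_shift (fun j => ξ ^ j * Polynomial.aeval ((1 - ζ ^ 4 ^ j)⁻¹) (VP p)) (3 ^ m) hper j
        rw [this]
        rfl
    _ = ∑ k ∈ range (3 ^ m), ξ ^ k * ∑ j ∈ range (3 ^ m),
          Polynomial.aeval ((1 - ζ ^ 4 ^ (j + k))⁻¹) (VP p) *
            Polynomial.aeval ((1 - ζ ^ 4 ^ j)⁻¹) (GO p (2 * N - 2)) := by
        simp only [mul_sum]
        rw [sum_comm]
        refine sum_congr rfl fun k _ => sum_congr rfl fun j _ => ?_
        have e2 : (ξ⁻¹) ^ j * ξ ^ (k + j) = ξ ^ k := by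
          rw [pow_add, inv_pow, mul_left_comm, inv_mul_cancel₀ (pow_ne_zero j hξ0), mul_one]
        rw [add_comm j k]
        linear_combination (Polynomial.aeval ((1 - ζ ^ 4 ^ j)⁻¹) (GO p (2 * N - 2)) *
          Polynomial.aeval ((1 - ζ ^ 4 ^ (k + j))⁻¹) (VP p)) * e2
    _ = 0 := by
        refine sum_eq_zero fun k _ => ?_
        rw [hconv k, mul_zero]

end H

end Pool.Agent.U784.RG
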