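import Mathlib
import Pool.Agent.U784.RG.Two
import Pool.Agent.TH10.RP.Final

/-!
# The smallest summand
-/

set_option autoImplicit false

namespace Pool.Agent.U784.RG

open Finset Polynomial Pool.Agent.H332R2 Pool.Agent.TH350.SumReg Pool.Agent.TH10.RP

variable {p : ℕ} [hp : Fact p.Prime]

lemma theta_dvd (Q : (ZMod p)[X]) {t : ℕ} (h : (X - 1) ^ (t + 1) ∣ Q) :
    (X - 1) ^ t ∣ X * derivative Q := by
  obtain ⟨R, rfl⟩ := h
  rw [derivative_mul, derivative_pow]
  refine Dvd.dvd.mul_left (dvd_add ?_ ?_) _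
  · refine Dvd.dvd.mul_right ?_ _
    simp only [Nat.add_sub_cancel, mul_assoc]
    refine Dvd.dvd.mul_left (Dvd.dvd.mul_right dvd_rfl _) _
  · refine Dvd.dvd.mul_right ?_ _
    exact pow_dvd_pow _ (Nat.le_succ t)

/-- a sum of `r` monomials of degree `< p` vanishes at `1` to an order smaller than `r` -/
theorem sparse_order (A : Finset ℕ) (w : ℕ → ZMod p) (hA : ∀ i ∈ A, 2 * i < p) (hw : ∀ i ∈ A, w i ≠ 0)
    (hne : A.Nonempty) {t : ℕ} (h : (X - 1 : (ZMod p)[X]) ^ t ∣ ∑ i ∈ A, C (w i) * X ^ (2 * i)) :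
    t < A.card := by
  classical
  by_contra hcon
  push Not at hcon
  set T : ℕ → (ZMod p)[X] := fun k => ∑ i ∈ A, C (w i * ((2 * i : ℕ) : ZMod p) ^ k) * X ^ (2 * i) with hT
  have hstep : ∀ k, X * derivative (T k) = T (k + 1) := by
    intro k
    simp only [hT]
    rw [derivative_sum, mul_sum]
    refine sum_congr rfl fun i _ => ?_
    rw [derivative_C_mul_X_pow]
    rcases Nat.eq_zero_or_pos (2 * i) with h0 | h0
    · rw [h0]; simp
    · have e : (X : (ZMod p)[X]) * (C (w i * ((2 * i : ℕ) : ZMod p) ^ k * ((2 * i : ℕ) : ZMod p)) *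
          X ^ (2 * i - 1)) = C (w i * ((2 * i : ℕ) : ZMod p) ^ k * ((2 * i : ℕ) : ZMod p)) *
          X ^ (2 * i - 1 + 1) := by
        rw [pow_succ]; ring
      rw [e]
      congr 2
      · rw [pow_succ]; ring
      · omega
  have hT0 : (X - 1 : (ZMod p)[X]) ^ t ∣ T 0 := by
    simp only [hT, pow_zero, mul_one]
    exact h
  have hTk : ∀ k, k ≤ t → (X - 1 : (ZMod p)[X]) ^ (t - k) ∣ T k := by
    intro k
    induction k with
    | zero => intro _; simpa using hT0
    | succ k ih =>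
      intro hk
      have h1 := ih (by omega)
      have h2 : t - k = (t - (k + 1)) + 1 := by omega
      rw [h2] at h1
      rw [← hstep k]
      exact theta_dvd _ h1
  have hTe : ∀ k, k < t → ∑ i ∈ A, w i * ((2 * i : ℕ) : ZMod p) ^ k = 0 := by
    intro k hk
    have h1 := hTk k hk.le
    have h2 : (X - 1 : (ZMod p)[X]) ∣ T k := (dvd_pow_self _ (by omega)).trans h1
    obtain ⟨R, hR⟩ := h2
    have h3 := congrArg (eval 1) hR
    simp only [hT, eval_finsetSum, eval_mul, eval_C, eval_pow, eval_X, one_pow, mul_one, eval_sub,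
      eval_one, sub_self, zero_mul] at h3
    exact h3
  let e : Fin A.card ≃ A := A.equivFin.symm
  have hinj : Function.Injective (fun j : Fin A.card => ((2 * (e j : ℕ) : ℕ) : ZMod p)) := by
    intro a b hab
    simp only at hab
    rw [ZMod.natCast_eq_natCast_iff] at hab
    have h1 := hA _ (e a).2
    have h2 := hA _ (e b).2
    have h3 : 2 * (e a : ℕ) = 2 * (e b : ℕ) := by
      have := hab
      unfold Nat.ModEq at this
      rwa [Nat.mod_eq_of_lt h1, Nat.mod_eq_of_lt h2] at this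
    have h4 : (e a : ℕ) = (e b : ℕ) := by omega
    exact e.injective (Subtype.ext h4)
  have hvan := Matrix.eq_zero_of_forall_pow_sum_mul_pow_eq_zero (f := fun j : Fin A.card =>
    ((2 * (e j : ℕ) : ℕ) : ZMod p)) (v := fun j : Fin A.card => w (e j)) hinj (by
      intro k
      have h1 := hTe k (lt_of_lt_of_le k.2 hcon)
      rw [← Finset.sum_coe_sort A] at h1
      rw [← h1]
      exact Equiv.sum_comp e (fun i : A => w (i : ℕ) * ((2 * (i : ℕ) : ℕ) : ZMod p) ^ (k : ℕ)))
  obtain ⟨a, ha⟩ := hne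
  have h1 := congrFun hvan (e.symm ⟨a, ha⟩)
  simp only [Equiv.apply_symm_apply, Pi.zero_apply] at h1
  exact hw a ha h1

lemma ww_symm (N i : ℕ) (hi : i ≤ N) : ww p N (N - i) = ww p N i := by
  unfold ww
  have : N - (N - i) = i := by omega
  rw [this, mul_comm]

/-- the number of representations is at least twice the smallest summand -/
theorem min_summand (N t : ℕ) (hN : 2 ≤ N) (hNp : 2 * N + 3 ≤ p)
    (ht : ∀ i, i ≤ N → ww p N i ≠ 0 → t + 1 ≤ i) :
    2 * t + 2 ≤ ((range (N + 1)).filter (fun i => ww p N i ≠ 0)).card := by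
  classical
  set A := (range (N + 1)).filter (fun i => ww p N i ≠ 0) with hA
  have hmemA : ∀ i ∈ A, i ≤ N ∧ ww p N i ≠ 0 := by
    intro i hi
    rw [hA, mem_filter, mem_range] at hi
    exact ⟨by omega, hi.2⟩
  have hAne : A.Nonempty := by
    obtain ⟨i, h1, h2⟩ := two_sum p N hNp
    exact ⟨i, mem_filter.2 ⟨mem_range.2 (by omega), h2⟩⟩
  have hid := identity_poly (p := p) N hN hNp
  have hsum : ∀ f : ℕ → (ZMod p)[X], ∑ i ∈ range (N + 1), C (ww p N i) * f i =
      ∑ i ∈ A, C (ww p N i) * f i := by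
    intro f
    rw [hA, sum_filter]
    refine sum_congr rfl fun i _ => ?_
    split_ifs with h
    · rfl
    · push Not at h
      rw [h, C_0, zero_mul]
  rw [hsum] at hid
  set S : (ZMod p)[X] := ∑ i ∈ A, C (ww p N i) * (X + 1) ^ (2 * i) with hS
  have hd1 : (X : (ZMod p)[X]) ^ (2 * t + 2) ∣ X * S := by
    have e : X * S = ∑ i ∈ A, C (ww p N i) * ((X + 1) * X ^ (2 * i)) -
        ∑ i ∈ A, C (ww p N i) * ((X + 1) ^ (2 * i) * X ^ (2 * (N - i))) := by
      rw [hS, mul_sum, ← sum_sub_distrib, ← sub_eq_zero, ← sum_sub_distrib, ← hid]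
      refine sum_congr rfl fun i _ => ?_
      ring
    rw [e]
    refine dvd_sub (dvd_sum fun i hi => ?_) (dvd_sum fun i hi => ?_)
    · have h1 := hmemA i hi
      have h2 := ht i h1.1 h1.2
      refine Dvd.dvd.mul_left (Dvd.dvd.mul_left (pow_dvd_pow _ (by omega)) _) _
    · have h1 := hmemA i hi
      have h2 := ht (N - i) (by omega) (by rw [ww_symm N i h1.1]; exact h1.2)
      refine Dvd.dvd.mul_left (Dvd.dvd.mul_left (pow_dvd_pow _ (by omega)) _) _
  have hd2 : (X : (ZMod p)[X]) ^ (2 * t + 1) ∣ S := by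
    have e : (X : (ZMod p)[X]) ^ (2 * t + 2) = X * X ^ (2 * t + 1) := by
      rw [← pow_succ']
    rw [e] at hd1
    exact (mul_dvd_mul_iff_left X_ne_zero).1 hd1
  have hd3 : (X - 1 : (ZMod p)[X]) ^ (2 * t + 1) ∣ ∑ i ∈ A, C (ww p N i) * X ^ (2 * i) := by
    obtain ⟨R, hR⟩ := hd2
    have h1 := congrArg (fun f : (ZMod p)[X] => f.comp (X - 1)) hR
    simp only [hS] at h1
    have h2 : (∑ i ∈ A, C (ww p N i) * (X + 1) ^ (2 * i) : (ZMod p)[X]).comp (X - 1) =
        ∑ i ∈ A, C (ww p N i) * X ^ (2 * i) := by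
      rw [Polynomial.sum_comp]
      refine sum_congr rfl fun i _ => ?_
      rw [mul_comp, C_comp, pow_comp, add_comp, X_comp, one_comp, sub_add_cancel]
    rw [h2, mul_comp, pow_comp, X_comp] at h1
    exact Dvd.intro _ h1.symm
  have h4 := sparse_order A (ww p N) (fun i hi => by have := (hmemA i hi).1; omega)
    (fun i hi => (hmemA i hi).2) hAne hd3
  omega

end Pool.Agent.U784.RG
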