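import Mathlib
import Pool.Agent.U784.RG.Min

/-!
# Sums of two regular indices: the final statements
-/

set_option autoImplicit false

namespace Pool.Agent.U784.RG

open Finset Pool.Agent.H332R2 Pool.Agent.TH350.SumReg Pool.Agent.TH10.RP

lemma sqrt_sum (K : ℕ) : 2 / 3 * (K * Real.sqrt K) ≤ ∑ N ∈ range (K + 1), Real.sqrt (N : ℝ) := by
  induction K with
  | zero => simp
  | succ K ih =>
    rw [sum_range_succ]
    refine le_trans ?_ (add_le_add_left ih _)
    push_cast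
    set a := Real.sqrt (K : ℝ) with ha
    set b := Real.sqrt ((K : ℝ) + 1) with hb
    have ha0 : 0 ≤ a := Real.sqrt_nonneg _
    have hb0 : 0 ≤ b := Real.sqrt_nonneg _
    have ha2 : a ^ 2 = K := Real.sq_sqrt (by positivity)
    have hb2 : b ^ 2 = (K : ℝ) + 1 := Real.sq_sqrt (by positivity)
    have hab : a ≤ b := Real.sqrt_le_sqrt (by linarith)
    -- in terms of a, b: K = a^2, K + 1 = b^2
    have hK : (K : ℝ) = a ^ 2 := ha2.symm
    have hK1 : (K : ℝ) + 1 = b ^ 2 := hb2.symm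
    rw [hK1, hK]
    have h1 : b ^ 2 - a ^ 2 = 1 := by linarith
    -- claim: 2/3 b^3 ≤ 2/3 a^3 + b
    have h2 : 2 * b ^ 3 ≤ 2 * a ^ 3 + 3 * b := by
      have h3 : 3 * b = 3 * b * (b ^ 2 - a ^ 2) := by rw [h1, mul_one]
      rw [h3]
      nlinarith [mul_nonneg hb0 (sq_nonneg (b - a)), mul_nonneg ha0 (sq_nonneg (b - a)),
        mul_nonneg (sub_nonneg.2 hab) (sq_nonneg (b - a)), mul_nonneg (sub_nonneg.2 hab) (sq_nonneg b),
        mul_nonneg (sub_nonneg.2 hab) (mul_nonneg ha0 hb0), mul_nonneg (sub_nonneg.2 hab) (sq_nonneg a)]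
    nlinarith [h2]

/-- the representations of `N` as a sum of two regular indices, `0` allowed -/
noncomputable def pairs (p N : ℕ) : Finset ℕ :=
  (Icc 0 N).filter (fun i : ℕ => ¬ (p : ℤ) ∣ (bernoulli (2 * i)).num ∧
    ¬ (p : ℤ) ∣ (bernoulli (2 * (N - i))).num)

lemma pairs_eq (p : ℕ) [Fact p.Prime] (N : ℕ) (hN : 2 * N + 3 ≤ p) :
    pairs p N = (range (N + 1)).filter (fun i => ww p N i ≠ 0) := by
  ext i
  rw [pairs, mem_filter, mem_filter, mem_Icc, mem_range]
  constructor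
  · rintro ⟨h1, h2⟩
    exact ⟨by omega, (ww_iff p N i h1.2 hN).2 h2⟩
  · rintro ⟨h1, h2⟩
    exact ⟨by omega, (ww_iff p N i (by omega) hN).1 h2⟩

theorem pairs_card (p : ℕ) (hp : p.Prime) (N : ℕ) (hN : 2 * N + 3 ≤ p) :
    2 * N < 9 * (pairs p N).card ^ 2 := by
  have : Fact p.Prime := ⟨hp⟩
  rw [pairs_eq p N hN]
  exact rep_bound p N hN (two_sum p N hN)

theorem pairs_min (p : ℕ) (hp : p.Prime) (N : ℕ) (hN : 2 * N + 3 ≤ p) :
    ∃ i ∈ pairs p N, 4 * i ≤ N + 1 := by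
  have : Fact p.Prime := ⟨hp⟩
  rw [pairs_eq p N hN]
  have hsym : ∀ i, i ≤ N → ww p N i ≠ 0 → ww p N (N - i) ≠ 0 := by
    intro i hi h
    rwa [ww_symm N i hi]
  by_contra hcon
  push Not at hcon
  have hcon' : ∀ i, i ≤ N → ww p N i ≠ 0 → N + 1 < 4 * i := by
    intro i hi h
    exact hcon i (mem_filter.2 ⟨mem_range.2 (by omega), h⟩)
  obtain ⟨i0, hi0, hw0⟩ := two_sum p N hN
  have h1 := hcon' i0 hi0 hw0
  have h2 := hcon' (N - i0) (by omega) (hsym i0 hi0 hw0)
  have hN2 : 2 ≤ N := by omega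
  have h3 := min_summand (p := p) N ((N + 1) / 4) hN2 hN (fun i hi h => by
    have := hcon' i hi h
    omega)
  have h4 : ((range (N + 1)).filter (fun i => ww p N i ≠ 0)).card ≤
      (Icc ((N + 1) / 4 + 1) (N - ((N + 1) / 4 + 1))).card := by
    refine card_le_card fun i hi => ?_
    rw [mem_filter, mem_range] at hi
    have h5 := hcon' i (by omega) hi.2
    have h6 := hcon' (N - i) (by omega) (hsym i (by omega) hi.2)
    rw [mem_Icc]
    omega
  rw [Nat.card_Icc] at h4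
  omega

theorem count_new (p : ℕ) (hp : p.Prime) (K : ℕ) (hK : 2 * K + 3 ≤ p) :
    8 * K ^ 3 ≤ 81 * (((Icc 1 K).filter
      (fun m : ℕ => ¬ (p : ℤ) ∣ (bernoulli (2 * m)).num)).card + 1) ^ 4 := by
  classical
  have : Fact p.Prime := ⟨hp⟩
  set s := ((Icc 1 K).filter (fun m : ℕ => ¬ ((p : ℤ) ∣ (_root_.bernoulli (2 * m)).num))).card with hs
  have h3 : ((range (K + 1)).filter (fun i => cc p (2 * i) ≠ 0)).card = s + 1 := by
    have e1 : (range (K + 1)).filter (fun i => cc p (2 * i) ≠ 0) =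
        insert 0 ((Icc 1 K).filter (fun m : ℕ => ¬ ((p : ℤ) ∣ (_root_.bernoulli (2 * m)).num))) := by
      ext x
      rw [mem_filter, mem_range, mem_insert, mem_filter, mem_Icc]
      constructor
      · rintro ⟨h4, h5⟩
        rcases Nat.eq_zero_or_pos x with rfl | hx
        · exact Or.inl rfl
        · right
          refine ⟨by omega, fun h6 => h5 ((cc_eq_zero_iff (by omega) (by omega)).2 h6)⟩
      · rintro (rfl | ⟨h4, h5⟩)
        · refine ⟨by omega, ?_⟩
          rw [mul_zero, cc_zero]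
          exact one_ne_zero
        · exact ⟨by omega, fun h6 => h5 ((cc_eq_zero_iff (by omega) (by omega)).1 h6)⟩
    rw [e1, card_insert_of_notMem]
    simp
  have hSG : SG p K = range (K + 1) := by
    unfold SG
    refine filter_true_of_mem fun N hN => ?_
    rw [mem_range] at hN
    exact two_sum p N (by omega)
  have h1 := pairs_count p K
  rw [h3, hSG] at h1
  have h2 : ∀ N ∈ range (K + 1), Real.sqrt 2 / 3 * Real.sqrt (N : ℝ) ≤
      (((range (N + 1)).filter (fun i => ww p N i ≠ 0)).card : ℝ) := by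
    intro N hN
    rw [mem_range] at hN
    have h5 := rep_bound p N (by omega) (two_sum p N (by omega))
    have h6 : (2 * (N : ℝ)) ≤ (3 * (((range (N + 1)).filter (fun i => ww p N i ≠ 0)).card : ℝ)) ^ 2 := by
      have : 2 * N ≤ (3 * ((range (N + 1)).filter (fun i => ww p N i ≠ 0)).card) ^ 2 := by
        rw [mul_pow]; omega
      exact_mod_cast this
    have h7 := Real.sqrt_le_sqrt h6
    rw [Real.sqrt_sq (by positivity), Real.sqrt_mul (by norm_num)] at h7
    linarith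
  have h4 : Real.sqrt 2 / 3 * (2 / 3 * (K * Real.sqrt K)) ≤ ((s : ℝ) + 1) ^ 2 := by
    calc Real.sqrt 2 / 3 * (2 / 3 * (K * Real.sqrt K))
        ≤ Real.sqrt 2 / 3 * ∑ N ∈ range (K + 1), Real.sqrt (N : ℝ) :=
          mul_le_mul_of_nonneg_left (sqrt_sum K) (by positivity)
      _ = ∑ N ∈ range (K + 1), Real.sqrt 2 / 3 * Real.sqrt (N : ℝ) := by rw [mul_sum]
      _ ≤ ∑ N ∈ range (K + 1), (((range (N + 1)).filter (fun i => ww p N i ≠ 0)).card : ℝ) :=
          sum_le_sum h2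
      _ ≤ ((s : ℝ) + 1) ^ 2 := by exact_mod_cast h1
  have h5 := pow_le_pow_left₀ (by positivity) h4 2
  have e2 : Real.sqrt 2 ^ 2 = 2 := Real.sq_sqrt (by norm_num)
  have e3 : Real.sqrt (K : ℝ) ^ 2 = K := Real.sq_sqrt (by positivity)
  have e4 : (Real.sqrt 2 / 3 * (2 / 3 * (K * Real.sqrt K))) ^ 2 =
      Real.sqrt 2 ^ 2 * Real.sqrt (K : ℝ) ^ 2 * (K : ℝ) ^ 2 * (4 / 81) := by ring
  rw [e4, e2, e3] at h5
  have h6 : (8 : ℝ) * (K : ℝ) ^ 3 ≤ 81 * ((s : ℝ) + 1) ^ 4 := by nlinarith [h5]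
  exact_mod_cast h6

end Pool.Agent.U784.RG
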